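import Pool.Agent.Helper1.SR.Grp

set_option autoImplicit false

/-!
# PROJECT SB (MP_ad201b_nt), block R: infinite Galois groups, forms, the obstruction of a pair
-/

open scoped TensorProduct

namespace Pool.Agent.Helper1.SR

open Pool.Agent.Helper8.BR (BrEq Az)

/-- a function on `Gal(W/N)` is locally constant: it depends only on the restriction to some
finite subextension -/
def LC (N W : Type) [Field N] [Field W] [Algebra N W] {X : Type} (f : (W ≃ₐ[N] W) → X) : Prop :=
  ∃ N' : IntermediateField N W, FiniteDimensional N N' ∧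
    ∀ g g' : W ≃ₐ[N] W, (∀ x ∈ N', g x = g' x) → f g = f g'

/-- `B` is the twisted form with scalar cocycle `z` on the possibly infinite group `Gal(W/N)` -/
def TwI (N W : Type) [Field N] [Field W] [Algebra N W] (B : Type) [Ring B] [Algebra N B]
    (z : (W ≃ₐ[N] W) → (W ≃ₐ[N] W) → W) : Prop :=
  ∃ (n : ℕ) (φ : B →ₐ[N] Matrix (Fin n) (Fin n) W)
    (P : (W ≃ₐ[N] W) → Matrix (Fin n) (Fin n) W),
    n ≠ 0 ∧ Module.finrank N B = n * n ∧ (∀ g, IsUnit (P g)) ∧
    (∀ g b, P g * mapG g (φ b) = φ b * P g) ∧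
    (∀ g h, P g * mapG g (P h) = z g h • P (g * h)) ∧ LC N W P

section
variable {K Om : Type} [Field K] [Field Om] [Algebra K Om] {A : Type} [Ring A] [Algebra K A]

/-- a chosen lift of a Galois element to `Ghat D` -/
noncomputable def lift (D : Datum K Om A) (g : D.E ≃ₐ[K] D.E) : Ghat D :=
  (Ghat.pr_surjective D g).choose

theorem lift_g (D : Datum K Om A) (g : D.E ≃ₐ[K] D.E) : (lift D g).g = g :=
  (Ghat.pr_surjective D g).choose_spec

open Classical in
/-- the scalar cocycle of the datum: `lift g * lift h` is `zD g h` times `lift (g * h)` -/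
noncomputable def zD (D : Datum K Om A) (g h : D.E ≃ₐ[K] D.E) : D.E :=
  if H : ∃ c : D.E, (lift D g * lift D h).M = c • (lift D (g * h)).M then H.choose else 1

/-- homomorphisms `Gal(W/N) → Gal(E/K)` that are continuous and compatible with the action on
the `d`-th roots of unity -/
structure GoodHom (D : Datum K Om A) (N W : Type) [Field N] [Field W] [Algebra N W]
    [Algebra W Om] (h : (W ≃ₐ[N] W) →* (D.E ≃ₐ[K] D.E)) : Prop where
  cont : LC N W h
  cyc : ∀ (g : W ≃ₐ[N] W) (ζ : W) (e : D.E), ζ ^ D.d = 1 → (e : Om) = algebraMap W Om ζ →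
    ((h g e : D.E) : Om) = algebraMap W Om (g ζ)

/-- `B` is the twisted form over `N` of the class of `A` along `h : Gal(W/N) → Gal(E/K)` -/
def Form (D : Datum K Om A) (N W : Type) [Field N] [Field W] [Algebra N W]
    [Algebra W Om] (h : (W ≃ₐ[N] W) →* (D.E ≃ₐ[K] D.E)) (B : Type) [Ring B] [Algebra N B] :
    Prop :=
  ∃ z : (W ≃ₐ[N] W) → (W ≃ₐ[N] W) → W, TwI N W B z ∧
    ∀ g g', algebraMap W Om (z g g') = ((zD D (h g) (h g') : D.E) : Om)

/-- the pair `(σ, τ)` has lifts to `Ghat D` satisfying the tame relation with exponent `q` -/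
def OB (D : Datum K Om A) (σ τ : D.E ≃ₐ[K] D.E) (q : ℕ) : Prop :=
  ∃ s t : Ghat D, s.g = σ ∧ t.g = τ ∧ s * t * s⁻¹ = t ^ q

end

end Pool.Agent.Helper1.SR
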