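import Pool.Agent.Helper1.SR.Ker

set_option autoImplicit false

/-!
# SB-R-07: `Ghat D` is finite, primes dividing its order
Paper: the kernel of `pr` embeds in the group of `d`-th roots of unity of `E`
(`ghat_scalar` with `y = 1`), which is a finite cyclic group of order dividing `d`.
-/

open scoped TensorProduct

namespace Pool.Agent.Helper1.SR

variable {K Om : Type} [Field K] [Field Om] [Algebra K Om] {A : Type} [Ring A] [Algebra K A]

private theorem finG_pow (D : Datum K Om A) (x : Ghat D) (hx : x.g = 1) (c : D.E)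
    (hc : x.M = c • (1 : Matrix (Fin D.d) (Fin D.d) D.E)) (n : ℕ) :
    (x ^ n).g = 1 ∧ (x ^ n).M = (c ^ n) • (1 : Matrix (Fin D.d) (Fin D.d) D.E) := by
  induction n with
  | zero => exact ⟨by rw [pow_zero, Ghat.one_g], by rw [pow_zero, pow_zero, Ghat.one_M, one_smul]⟩
  | succ n ih =>
    refine ⟨by rw [pow_succ, Ghat.mul_g, ih.1, hx, one_mul], ?_⟩
    rw [pow_succ, Ghat.mul_M, ih.1, mapG_id, ih.2, hc, smul_mul_assoc, one_mul, smul_smul, pow_succ]

theorem ghat_finite [IsAzumaya K A] (D : Datum K Om A) : Finite (Ghat D) := by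
  classical
  have hfin : Finite {c : D.E // c ^ D.d = 1} := by
    have h1 : {c : D.E | c ^ D.d = 1} ⊆ ((Polynomial.nthRoots D.d (1 : D.E)).toFinset : Set D.E) := by
      intro c hc
      rw [Finset.mem_coe, Multiset.mem_toFinset, Polynomial.mem_nthRoots (Nat.pos_of_ne_zero D.hd)]
      exact hc
    exact ((Finset.finite_toSet _).subset h1).to_subtype
  have hG : Finite (D.E ≃ₐ[K] D.E) := inferInstance
  have hex : ∀ x : Ghat D, ∃ c : D.E, c ^ D.d = 1 ∧ x.M = c • (lift D x.g).M := fun x =>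
    ghat_scalar D x (lift D x.g) (lift_g D x.g).symm
  refine Finite.of_injective
    (fun x : Ghat D => ((x.g, ⟨(hex x).choose, (hex x).choose_spec.1⟩) : (D.E ≃ₐ[K] D.E) × {c : D.E // c ^ D.d = 1})) ?_
  intro x y hxy
  have h1 : x.g = y.g := congrArg Prod.fst hxy
  have h2 : (hex x).choose = (hex y).choose := congrArg (fun t => (t.2 : D.E)) hxy
  refine Ghat.ext' ?_ h1
  rw [(hex x).choose_spec.2, (hex y).choose_spec.2, h2, h1]

theorem ghat_prime [IsAzumaya K A] (D : Datum K Om A) (p : ℕ) (hp : p.Prime)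
    (h : p ∣ Nat.card (Ghat D)) : p ∣ D.d ∨ p ∣ Nat.card (D.E ≃ₐ[K] D.E) := by
  have hfin := ghat_finite D
  have hG : Finite (D.E ≃ₐ[K] D.E) := inferInstance
  have : Fact p.Prime := ⟨hp⟩
  obtain ⟨x, hx⟩ := exists_prime_orderOf_dvd_card' p h
  by_cases hg : x.g = 1
  · left
    obtain ⟨c, hc1, hc⟩ := ghat_scalar D x 1 (by rw [hg, Ghat.one_g])
    rw [Ghat.one_M] at hc
    obtain ⟨h1, h2⟩ := finG_pow D x hg c hc D.d
    have h3 : x ^ D.d = 1 := by
      refine Ghat.ext' ?_ ?_
      · rw [h2, hc1, one_smul, Ghat.one_M]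
      · rw [h1, Ghat.one_g]
    rw [← hx]
    exact orderOf_dvd_of_pow_eq_one h3
  · right
    have h1 : orderOf (Ghat.pr D x) ∣ p := by
      rw [← hx]
      exact orderOf_map_dvd (Ghat.pr D) x
    have h2 : orderOf (Ghat.pr D x) ≠ 1 := by
      rw [Ne, orderOf_eq_one_iff]
      exact hg
    have h3 : orderOf (Ghat.pr D x) = p := (Nat.dvd_prime hp).1 h1 |>.resolve_left h2
    rw [← h3]
    exact orderOf_dvd_natCard _

end Pool.Agent.Helper1.SR
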