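import Mathlib

set_option autoImplicit false

/-!
# Base change of Azumaya algebras over arbitrary commutative rings
-/

open scoped TensorProduct

namespace Pool.Agent.Helper1.SR

section

variable (R S A : Type) [CommRing R] [CommRing S] [Algebra R S] [Ring A] [Algebra R A]

/-- a finite dual basis -/
theorem exists_dual_basis (M : Type) [AddCommGroup M] [Module R M] [Module.Finite R M]
    [Module.Projective R M] : ∃ (n : ℕ) (f : Fin n → M →ₗ[R] R) (a : Fin n → M),
      ∀ x, x = ∑ i, f i x • a i := by
  obtain ⟨n, p, hp⟩ := Module.Finite.exists_fin' R M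
  obtain ⟨s, hs⟩ := Module.projective_lifting_property p LinearMap.id hp
  refine ⟨n, fun i => (LinearMap.proj i).comp s, fun i => p (Pi.single i 1), fun x => ?_⟩
  have h1 : p (s x) = x := LinearMap.congr_fun hs x
  conv_lhs => rw [← h1]
  have h2 : s x = ∑ i, (s x i) • (Pi.single i (1 : R) : Fin n → R) := by
    funext j
    simp [Finset.sum_apply, Pi.single_apply]
  conv_lhs => rw [h2, map_sum]
  refine Finset.sum_congr rfl fun i _ => ?_
  rw [map_smul]
  rfl

/-- faithful finite projective modules stay faithful -/
theorem faithful_baseChange (M : Type) [AddCommGroup M] [Module R M] [Module.Finite R M]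
    [Module.Projective R M] [FaithfulSMul R M] : FaithfulSMul S (S ⊗[R] M) := by
  obtain ⟨n, f, a, hfa⟩ := exists_dual_basis R M
  let T : Ideal R := Ideal.span (⋃ i, Set.range (f i))
  have hT : (⊤ : Submodule R M) ≤ T • ⊤ := by
    intro x _
    rw [hfa x]
    refine Submodule.sum_mem _ fun i _ => Submodule.smul_mem_smul ?_ trivial
    exact Ideal.subset_span (Set.mem_iUnion.mpr ⟨i, x, rfl⟩)
  obtain ⟨r, hr1, hr2⟩ := Submodule.exists_sub_one_mem_and_smul_eq_zero_of_fg_of_le_smul T ⊤
    (Module.Finite.fg_top) hT
  have hr0 : r = 0 := by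
    apply FaithfulSMul.eq_of_smul_eq_smul (α := M)
    intro x
    rw [zero_smul]
    exact hr2 x trivial
  have h1 : (1 : R) ∈ T := by
    rw [hr0, zero_sub] at hr1
    simpa using T.neg_mem hr1
  refine ⟨fun {s t} hst => ?_⟩
  -- `u = s - t` kills everything
  have hu : ∀ x : S ⊗[R] M, (s - t) • x = 0 := fun x => by
    have h2 := sub_smul s t x
    have h3 := hst x
    rw [h3, sub_self] at h2
    exact h2
  have key : ∀ c ∈ T, (s - t) * algebraMap R S c = 0 := by
    intro c hc
    refine Submodule.span_induction (p := fun c _ => (s - t) * algebraMap R S c = 0)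
      ?_ ?_ ?_ ?_ hc
    · intro c hc
      obtain ⟨i, x, rfl⟩ := Set.mem_iUnion.mp hc
      have h2 := congrArg ((f i).baseChange S) (hu (1 ⊗ₜ x))
      rw [map_smul, LinearMap.baseChange_tmul, map_zero] at h2
      have h3 := congrArg (TensorProduct.rid R S) h2
      rw [map_zero] at h3
      rw [TensorProduct.smul_tmul', TensorProduct.rid_tmul, smul_eq_mul, mul_one] at h3
      rw [Algebra.smul_def] at h3
      rw [mul_comm]
      exact h3
    · rw [map_zero, mul_zero]
    · intro x y _ _ hx hy
      rw [map_add, mul_add, hx, hy, add_zero]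
    · intro a x _ hx
      rw [smul_eq_mul, map_mul, mul_left_comm, hx, mul_zero]
  have h4 := key 1 h1
  rw [map_one, mul_one] at h4
  exact sub_eq_zero.mp h4

/-- base change of the endomorphism ring of a finite projective module -/
theorem baseEnd_bij (M : Type) [AddCommGroup M] [Module R M] [Module.Finite R M]
    [Module.Projective R M] :
    Function.Bijective (LinearMap.liftBaseChange S (LinearMap.baseChangeHom R S M M)) := by
  obtain ⟨n, f, a, hfa⟩ := exists_dual_basis R M
  let ρ : Fin n → M →ₗ[R] (M →ₗ[R] M) := fun i => LinearMap.smulRightₗ (f i)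
  have hρ : ∀ i b x, ρ i b x = f i x • b := fun i b x => rfl
  let back : (S ⊗[R] M →ₗ[S] S ⊗[R] M) → S ⊗[R] (M →ₗ[R] M) := fun ψ =>
    ∑ i, (ρ i).baseChange S (ψ (1 ⊗ₜ a i))
  refine Function.bijective_iff_has_inverse.mpr ⟨back, ?_, ?_⟩
  · intro u
    induction u using TensorProduct.induction_on with
    | zero => simp [back]
    | add x y hx hy =>
      have : back (LinearMap.liftBaseChange S (LinearMap.baseChangeHom R S M M) (x + y)) =
          back (LinearMap.liftBaseChange S (LinearMap.baseChangeHom R S M M) x) +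
          back (LinearMap.liftBaseChange S (LinearMap.baseChangeHom R S M M) y) := by
        simp only [back, map_add, LinearMap.add_apply, Finset.sum_add_distrib]
      rw [this, hx, hy]
    | tmul s g =>
      have h1 : LinearMap.liftBaseChange S (LinearMap.baseChangeHom R S M M) (s ⊗ₜ[R] g) =
          s • g.baseChange S := by simp
      rw [h1]
      simp only [back, LinearMap.smul_apply, LinearMap.baseChange_tmul,
        TensorProduct.smul_tmul', smul_eq_mul, mul_one]
      rw [← TensorProduct.tmul_sum]
      congr 1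
      refine LinearMap.ext fun x => ?_
      rw [LinearMap.sum_apply]
      conv_rhs => rw [hfa x, map_sum]
      refine Finset.sum_congr rfl fun i _ => ?_
      rw [hρ, map_smul]
  · intro ψ
    have hβ : ∀ i (y : S ⊗[R] M) (m : M),
        LinearMap.liftBaseChange S (LinearMap.baseChangeHom R S M M)
          ((ρ i).baseChange S y) (1 ⊗ₜ m) = f i m • y := by
      intro i y m
      induction y using TensorProduct.induction_on with
      | zero => simp
      | add x y hx hy => rw [map_add, map_add, LinearMap.add_apply, hx, hy, smul_add]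
      | tmul s b =>
        simp only [LinearMap.baseChange_tmul, LinearMap.liftBaseChange_tmul,
          LinearMap.smul_apply, LinearMap.baseChangeHom_apply, hρ, TensorProduct.smul_tmul',
          smul_eq_mul, TensorProduct.tmul_smul]
        rw [mul_smul_comm, mul_one]
    refine TensorProduct.AlgebraTensorModule.ext fun s m => ?_
    have h1 : ∀ χ : S ⊗[R] M →ₗ[S] S ⊗[R] M, χ (s ⊗ₜ m) = s • χ (1 ⊗ₜ m) := fun χ => by
      rw [← map_smul, TensorProduct.smul_tmul', smul_eq_mul, mul_one]
    change LinearMap.liftBaseChange S (LinearMap.baseChangeHom R S M M) (back ψ) (s ⊗ₜ m) =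
      ψ (s ⊗ₜ m)
    rw [h1, h1 ψ]
    congr 1
    simp only [back, map_sum, LinearMap.sum_apply, hβ]
    conv_rhs => rw [hfa m, TensorProduct.tmul_sum, map_sum]
    refine Finset.sum_congr rfl fun i _ => ?_
    rw [TensorProduct.tmul_smul]
    exact (LinearMap.map_smul_of_tower ψ (f i m) _).symm

/-- base change of Azumaya algebras over arbitrary commutative rings -/
theorem az_baseChange' [IsAzumaya R A] : IsAzumaya S (S ⊗[R] A) := by
  have h0 : FaithfulSMul S (S ⊗[R] A) := faithful_baseChange R S A
  let θ : A ⊗[R] Aᵐᵒᵖ ≃ₗ[R] Module.End R A :=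
    (AlgEquiv.ofBijective (AlgHom.mulLeftRight R A) IsAzumaya.bij).toLinearEquiv
  have hθ : ∀ a b x, θ (a ⊗ₜ b) x = a * x * b.unop := fun a b x => AlgHom.mulLeftRight_apply ..
  let E0 : A ⊗[R] Aᵐᵒᵖ →ₗ[R] (S ⊗[R] A) ⊗[S] (S ⊗[R] A)ᵐᵒᵖ :=
    TensorProduct.lift
      { toFun := fun a =>
          { toFun := fun b => ((1 : S) ⊗ₜ[R] a) ⊗ₜ[S] MulOpposite.op ((1 : S) ⊗ₜ[R] b.unop)
            map_add' := fun x y => by
              rw [MulOpposite.unop_add, TensorProduct.tmul_add, MulOpposite.op_add,
                TensorProduct.tmul_add]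
            map_smul' := fun r x => by
              rw [MulOpposite.unop_smul, TensorProduct.tmul_smul, MulOpposite.op_smul,
                TensorProduct.tmul_smul, RingHom.id_apply] }
        map_add' := fun x y => LinearMap.ext fun b => by
          change ((1 : S) ⊗ₜ[R] (x + y)) ⊗ₜ[S] _ = _
          rw [TensorProduct.tmul_add, TensorProduct.add_tmul]
          rfl
        map_smul' := fun r x => LinearMap.ext fun b => by
          change ((1 : S) ⊗ₜ[R] (r • x)) ⊗ₜ[S] _ = _
          rw [TensorProduct.tmul_smul, TensorProduct.smul_tmul']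
          rfl }
  have hE0 : ∀ a b, E0 (a ⊗ₜ b) =
    ((1 : S) ⊗ₜ[R] a) ⊗ₜ[S] MulOpposite.op ((1 : S) ⊗ₜ[R] b.unop) := fun a b => rfl
  let E : S ⊗[R] (A ⊗[R] Aᵐᵒᵖ) →ₗ[S] (S ⊗[R] A) ⊗[S] (S ⊗[R] A)ᵐᵒᵖ :=
    LinearMap.liftBaseChange S E0
  let β := LinearMap.liftBaseChange S (LinearMap.baseChangeHom R S A A)
  have hβ : Function.Bijective β := baseEnd_bij R S A
  let θS := θ.baseChange R S _ _
  have key : ∀ u, AlgHom.mulLeftRight S (S ⊗[R] A) (E u) = β (θS u) := by
    intro u
    induction u using TensorProduct.induction_on with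
    | zero => simp
    | add x y hx hy => simp only [map_add, hx, hy]
    | tmul s t =>
      induction t using TensorProduct.induction_on with
      | zero => simp
      | add x y hx hy => simp only [TensorProduct.tmul_add, map_add, hx, hy]
      | tmul a b =>
        have h1 : E (s ⊗ₜ (a ⊗ₜ b)) = s • E0 (a ⊗ₜ b) := by simp [E]
        have h2 : β (θS (s ⊗ₜ (a ⊗ₜ b))) = s • (θ (a ⊗ₜ b)).baseChange S := by
          simp [β, θS]
        rw [h1, h2, map_smul, hE0]
        congr 1
        refine TensorProduct.AlgebraTensorModule.ext fun s' x => ?_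
        rw [AlgHom.mulLeftRight_apply, LinearMap.baseChange_tmul, hθ, MulOpposite.unop_op,
          Algebra.TensorProduct.tmul_mul_tmul, Algebra.TensorProduct.tmul_mul_tmul, one_mul,
          mul_one]
  have hE : Function.Surjective E := by
    rw [← LinearMap.range_eq_top, eq_top_iff]
    intro t _
    induction t using TensorProduct.induction_on with
    | zero => exact zero_mem _
    | add x y hx hy => exact add_mem (hx trivial) (hy trivial)
    | tmul x y =>
      obtain ⟨y, rfl⟩ := MulOpposite.op_surjective y
      induction x using TensorProduct.induction_on with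
      | zero => rw [TensorProduct.zero_tmul]; exact zero_mem _
      | add x x' hx hx' => rw [TensorProduct.add_tmul]; exact add_mem (hx trivial) (hx' trivial)
      | tmul s a =>
        induction y using TensorProduct.induction_on with
        | zero => rw [MulOpposite.op_zero, TensorProduct.tmul_zero]; exact zero_mem _
        | add y y' hy hy' =>
          rw [MulOpposite.op_add, TensorProduct.tmul_add]
          exact add_mem (hy trivial) (hy' trivial)
        | tmul s' b =>
          refine ⟨(s * s') ⊗ₜ (a ⊗ₜ MulOpposite.op b), ?_⟩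
          have h1 : E ((s * s') ⊗ₜ (a ⊗ₜ MulOpposite.op b)) =
            (s * s') • E0 (a ⊗ₜ MulOpposite.op b) := by simp [E]
          rw [h1, hE0, MulOpposite.unop_op]
          have h2 : (s ⊗ₜ[R] a : S ⊗[R] A) = s • ((1 : S) ⊗ₜ[R] a) := by
            rw [TensorProduct.smul_tmul', smul_eq_mul, mul_one]
          have h3 : (s' ⊗ₜ[R] b : S ⊗[R] A) = s' • ((1 : S) ⊗ₜ[R] b) := by
            rw [TensorProduct.smul_tmul', smul_eq_mul, mul_one]
          rw [h2, h3, MulOpposite.op_smul, TensorProduct.tmul_smul, ← TensorProduct.smul_tmul',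
            smul_smul, mul_comm]
  have hp : Module.Projective S (S ⊗[R] A) := inferInstance
  have hf : Module.Finite S (S ⊗[R] A) := inferInstance
  refine { bij := ⟨?_, ?_⟩ }
  · rw [injective_iff_map_eq_zero]
    intro t ht
    obtain ⟨u, rfl⟩ := hE t
    rw [key] at ht
    have h1 : θS u = 0 := hβ.1 (by rw [ht, map_zero])
    have h2 : u = 0 := θS.injective (by rw [h1, map_zero])
    rw [h2, map_zero]
  · intro ψ
    obtain ⟨w, hw⟩ := hβ.2 ψ
    obtain ⟨u, hu⟩ := θS.surjective w
    exact ⟨E u, by rw [key, hu, hw]⟩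

end

end Pool.Agent.Helper1.SR
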