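import Pool.Agent.Helper1.SR.Span
import Pool.Agent.Helper8.BR.Skolem

set_option autoImplicit false

/-!
# SB-R-04: Skolem-Noether for two representations
Paper: `e₁, e₂ : N' ⊗ B ≃ M_n(N')` (`repr_equiv`), the automorphism `e₁ e₂⁻¹` of `M_n(N')` is
inner (`skolem_noether`, `IsAzumaya.matrix`).
-/

open scoped TensorProduct

namespace Pool.Agent.Helper1.SR

theorem exists_conj (N N' B : Type) [Field N] [Field N'] [Algebra N N'] [Ring B] [Algebra N B]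
    [IsAzumaya N B] (n : ℕ) (hn : n ≠ 0) (hdim : Module.finrank N B = n * n)
    (φ ψ : B →ₐ[N] Matrix (Fin n) (Fin n) N') :
    ∃ M : Matrix (Fin n) (Fin n) N', IsUnit M ∧ ∀ b, M * ψ b = φ b * M := by
  obtain ⟨e₁, h₁⟩ := repr_equiv N N' B n hn hdim φ
  obtain ⟨e₂, h₂⟩ := repr_equiv N N' B n hn hdim ψ
  have : Nonempty (Fin n) := ⟨⟨0, Nat.pos_of_ne_zero hn⟩⟩
  have hz : IsAzumaya N' (Matrix (Fin n) (Fin n) N') := IsAzumaya.matrix N' (Fin n)
  obtain ⟨u, hu⟩ := Pool.Agent.Helper8.BR.skolem_noether N' (Matrix (Fin n) (Fin n) N')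
    (e₂.symm.trans e₁)
  refine ⟨u, u.isUnit, fun b => ?_⟩
  have h3 : (e₂.symm.trans e₁) (ψ b) = φ b := by
    have h4 : ψ b = e₂ (1 ⊗ₜ[N] b) := by rw [h₂, one_smul]
    rw [AlgEquiv.trans_apply, h4, AlgEquiv.symm_apply_apply, h₁, one_smul]
  have h5 := hu (ψ b)
  rw [h3] at h5
  rw [h5, mul_assoc, Units.inv_mul, mul_one]

end Pool.Agent.Helper1.SR
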