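import Pool.Agent.Helper1.SR.Defs
import Pool.Agent.Helper8.BR.Fields
import Pool.Agent.Helper8.BR.OpBase

set_option autoImplicit false

/-!
# SB-R-12: descent of the Azumaya property
Paper: `B` is finite dimensional over `N` and `N' ⊗ B ≃ M_n(N')`, `n ≠ 0`.  Central: if `x` is in
the center of `B`, then `1 ⊗ x` is central in `N' ⊗ B`, so it is `c ⊗ 1`, so `x` is in `N` (linear
algebra: `1, x` independent over `N` would make `1 ⊗ 1, 1 ⊗ x` independent over `N'`).  Simple: for a
two sided ideal `I` of `B` the ideal generated by `1 ⊗ I` is `0` or everything; compare dimensions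
(it is the image of `N' ⊗ I`).  Then `az_of_central_simple`.  Other way: `mulLeftRight` of `B` becomes
after base change the bijective `mulLeftRight` of `N' ⊗ B`.
-/

open scoped TensorProduct

namespace Pool.Agent.Helper1.SR

private theorem azdesc_tensor_simple (N N' B : Type) [Field N] [Field N'] [Algebra N N'] [Ring B]
    [Algebra N B] (n : ℕ) (hn : n ≠ 0)
    (e : N' ⊗[N] B ≃ₐ[N'] Matrix (Fin n) (Fin n) N') : IsSimpleRing (N' ⊗[N] B) := by
  have : Nonempty (Fin n) := ⟨⟨0, Nat.pos_of_ne_zero hn⟩⟩
  have : IsSimpleRing (Matrix (Fin n) (Fin n) N') := IsSimpleRing.matrix (Fin n) N'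
  exact IsSimpleRing.of_ringEquiv e.symm.toRingEquiv this

private theorem azdesc_tensor_central (N N' B : Type) [Field N] [Field N'] [Algebra N N'] [Ring B]
    [Algebra N B] (n : ℕ)
    (e : N' ⊗[N] B ≃ₐ[N'] Matrix (Fin n) (Fin n) N') : Algebra.IsCentral N' (N' ⊗[N] B) :=
  Algebra.IsCentral.of_algEquiv N' _ _ e.symm

private theorem azdesc_central (N N' B : Type) [Field N] [Field N'] [Algebra N N'] [Ring B]
    [Algebra N B] (h : Algebra.IsCentral N' (N' ⊗[N] B)) (hnt : Nontrivial B) :
    Algebra.IsCentral N B := by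
  refine ⟨fun x hx => ?_⟩
  rw [Subalgebra.mem_center_iff] at hx
  have hc : (1 : N') ⊗ₜ[N] x ∈ Subalgebra.center N' (N' ⊗[N] B) := by
    rw [Subalgebra.mem_center_iff]
    intro b
    induction b using TensorProduct.induction_on with
    | zero => rw [zero_mul, mul_zero]
    | tmul a b =>
      rw [Algebra.TensorProduct.tmul_mul_tmul, Algebra.TensorProduct.tmul_mul_tmul, mul_one,
        one_mul, hx b]
    | add a b ha hb => rw [add_mul, mul_add, ha, hb]
  have hc' := h.out hc
  rw [Algebra.mem_bot] at hc'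
  obtain ⟨c, hc'⟩ := hc'
  rw [Algebra.TensorProduct.algebraMap_apply] at hc'
  by_contra hxb
  have hx' : x ∉ Submodule.span N ({1} : Set B) := by
    intro hmem
    rw [Submodule.mem_span_singleton] at hmem
    obtain ⟨a, ha⟩ := hmem
    apply hxb
    rw [Algebra.mem_bot]
    exact ⟨a, by rw [Algebra.algebraMap_eq_smul_one, ha]⟩
  obtain ⟨f, hf, hfx⟩ := LinearMap.exists_extend_of_notMem (K := N)
    (p := Submodule.span N ({1} : Set B)) (v := x) (V' := N) 0 hx' 1
  have hf1 : f 1 = 0 := by
    have := LinearMap.congr_fun hf ⟨1, Submodule.mem_span_singleton_self _⟩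
    simpa using this
  have key := congrArg (fun t => TensorProduct.rid N N' (f.lTensor N' t)) hc'
  simp only [LinearMap.lTensor_tmul, TensorProduct.rid_tmul, hf1, hfx, zero_smul, one_smul] at key
  exact zero_ne_one key

private theorem azdesc_simple (N N' B : Type) [Field N] [Field N'] [Algebra N N'] [Ring B]
    [Algebra N B] (h : IsSimpleRing (N' ⊗[N] B)) (hnt : Nontrivial B) :
    IsSimpleRing B := by
  refine IsSimpleRing.of_eq_bot_or_eq_top fun I => ?_
  by_contra hcon
  push Not at hcon
  obtain ⟨hI0, hI1⟩ := hcon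
  have hQ : Nontrivial I.ringCon.Quotient := by
    refine ⟨⟨1, 0, fun h10 => hI1 ?_⟩⟩
    have h1 : (1 : B) ∈ I := by
      have : ((1 : B) : I.ringCon.Quotient) = ((0 : B) : I.ringCon.Quotient) := h10
      rw [RingCon.eq] at this
      rw [TwoSidedIdeal.mem_iff]
      exact this
    refine le_antisymm le_top fun y _ => ?_
    have := I.mul_mem_left y 1 h1
    rwa [mul_one] at this
  have hex : ∃ x ∈ I, x ≠ 0 := by
    by_contra hcon
    push Not at hcon
    apply hI0
    refine le_antisymm (fun x hx => ?_) bot_le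
    rw [hcon x hx]
    exact TwoSidedIdeal.zero_mem _
  obtain ⟨x, hxI, hx0⟩ := hex
  let q : B →ₐ[N] I.ringCon.Quotient :=
    { I.ringCon.mk' with commutes' := fun r => rfl }
  let Q : N' ⊗[N] B →ₐ[N] N' ⊗[N] I.ringCon.Quotient :=
    Algebra.TensorProduct.map (AlgHom.id N N') q
  have hinj1 : Function.Injective
      (Algebra.TensorProduct.includeRight : B →ₐ[N] N' ⊗[N] B) :=
    Algebra.TensorProduct.includeRight_injective (algebraMap N N').injective
  have hinj2 : Function.Injective
      (Algebra.TensorProduct.includeRight : I.ringCon.Quotient →ₐ[N] N' ⊗[N] I.ringCon.Quotient) :=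
    Algebra.TensorProduct.includeRight_injective (algebraMap N N').injective
  have hnt' : Nontrivial (N' ⊗[N] I.ringCon.Quotient) := hinj2.nontrivial
  have hQinj : Function.Injective Q.toRingHom := RingHom.injective _
  have hqx : q x = 0 := by
    have : ((x : B) : I.ringCon.Quotient) = ((0 : B) : I.ringCon.Quotient) := by
      rw [RingCon.eq]
      rwa [TwoSidedIdeal.mem_iff] at hxI
    exact this
  have hz : Q.toRingHom ((1 : N') ⊗ₜ[N] x) = Q.toRingHom 0 := by
    rw [map_zero]
    change Algebra.TensorProduct.map (AlgHom.id N N') q ((1 : N') ⊗ₜ[N] x) = 0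
    rw [Algebra.TensorProduct.map_tmul, hqx, TensorProduct.tmul_zero]
  have h0 : (1 : N') ⊗ₜ[N] x = 0 := hQinj hz
  apply hx0
  apply hinj1
  rw [map_zero]
  exact h0

theorem az_of_baseChange_matrix (N N' B : Type) [Field N] [Field N'] [Algebra N N'] [Ring B]
    [Algebra N B] [FiniteDimensional N B] (n : ℕ) (hn : n ≠ 0)
    (e : N' ⊗[N] B ≃ₐ[N'] Matrix (Fin n) (Fin n) N') : IsAzumaya N B := by
  have hs : IsSimpleRing (N' ⊗[N] B) := azdesc_tensor_simple N N' B n hn e
  have hc : Algebra.IsCentral N' (N' ⊗[N] B) := azdesc_tensor_central N N' B n e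
  have hnt : Nontrivial B := by
    by_contra hB
    rw [not_nontrivial_iff_subsingleton] at hB
    have h1 : (1 : N' ⊗[N] B) = 0 := by
      rw [Algebra.TensorProduct.one_def, Subsingleton.elim (1 : B) 0, TensorProduct.tmul_zero]
    exact one_ne_zero h1
  have : Algebra.IsCentral N B := azdesc_central N N' B hc hnt
  have : IsSimpleRing B := azdesc_simple N N' B hs hnt
  exact Pool.Agent.Helper8.BR.az_of_central_simple N B

end Pool.Agent.Helper1.SR
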