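import Pool.Agent.Helper1.SR.Defs
import Pool.Agent.Helper8.BR.Fields
import Pool.Agent.Helper8.BR.OpBase

set_option autoImplicit false

/-!
# SB-R-01: a representation of the right size spans the matrix algebra
Paper: `N' ⊗ B` is Azumaya over `N'` (`az_baseChange`), so simple (`az_simple`), so the map
`N' ⊗ B → M_n(N')`, `c ⊗ b ↦ c • φ b`, is injective, and the dimensions agree.
-/

open scoped TensorProduct

namespace Pool.Agent.Helper1.SR

theorem repr_equiv (N N' B : Type) [Field N] [Field N'] [Algebra N N'] [Ring B] [Algebra N B]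
    [IsAzumaya N B] (n : ℕ) (hn : n ≠ 0) (hdim : Module.finrank N B = n * n)
    (φ : B →ₐ[N] Matrix (Fin n) (Fin n) N') :
    ∃ e : N' ⊗[N] B ≃ₐ[N'] Matrix (Fin n) (Fin n) N', ∀ c b, e (c ⊗ₜ[N] b) = c • φ b := by
  have hne : Nonempty (Fin n) := ⟨⟨0, Nat.pos_of_ne_zero hn⟩⟩
  let F : N' ⊗[N] B →ₐ[N'] Matrix (Fin n) (Fin n) N' :=
    Algebra.TensorProduct.lift (Algebra.ofId N' (Matrix (Fin n) (Fin n) N')) φ
      (fun x y => Algebra.commutes x (φ y))
  have hF : ∀ c b, F (c ⊗ₜ[N] b) = c • φ b := by
    intro c b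
    refine (Algebra.TensorProduct.lift_tmul _ _ _ c b).trans ?_
    rw [Algebra.smul_def]
    rfl
  have h1 : IsAzumaya N' (N' ⊗[N] B) := Pool.Agent.Helper8.BR.az_baseChange N N' B
  have h2 : IsSimpleRing (N' ⊗[N] B) := Pool.Agent.Helper8.BR.az_simple N' _
  have hinj : Function.Injective F := F.toRingHom.injective
  have hfin : FiniteDimensional N' (N' ⊗[N] B) := by
    have := Module.Finite.base_change N N' B
    exact this
  have hd : Module.finrank N' (N' ⊗[N] B) =
      Module.finrank N' (Matrix (Fin n) (Fin n) N') := by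
    rw [Module.finrank_baseChange, hdim, Module.finrank_matrix, Fintype.card_fin,
      Module.finrank_self, mul_one]
  have hsurj : Function.Surjective F :=
    (LinearMap.injective_iff_surjective_of_finrank_eq_finrank (f := F.toLinearMap) hd).mp hinj
  exact ⟨AlgEquiv.ofBijective F ⟨hinj, hsurj⟩, hF⟩

theorem repr_span (N N' B : Type) [Field N] [Field N'] [Algebra N N'] [Ring B] [Algebra N B]
    [IsAzumaya N B] (n : ℕ) (hn : n ≠ 0) (hdim : Module.finrank N B = n * n)
    (φ : B →ₐ[N] Matrix (Fin n) (Fin n) N') :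
    Submodule.span N' (Set.range φ) = ⊤ := by
  obtain ⟨e, he⟩ := repr_equiv N N' B n hn hdim φ
  rw [eq_top_iff]
  intro x _
  obtain ⟨t, rfl⟩ := e.surjective x
  induction t using TensorProduct.induction_on with
  | zero => rw [map_zero]; exact zero_mem _
  | tmul c b =>
    rw [he]
    exact Submodule.smul_mem _ _ (Submodule.subset_span ⟨b, rfl⟩)
  | add x y hx hy =>
    rw [map_add]
    exact add_mem (hx trivial) (hy trivial)

/-- a matrix commuting with the image of `B` is scalar -/
theorem repr_scalar (N N' B : Type) [Field N] [Field N'] [Algebra N N'] [Ring B] [Algebra N B]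
    [IsAzumaya N B] (n : ℕ) (hn : n ≠ 0) (hdim : Module.finrank N B = n * n)
    (φ : B →ₐ[N] Matrix (Fin n) (Fin n) N') (T : Matrix (Fin n) (Fin n) N')
    (hT : ∀ b, T * φ b = φ b * T) : ∃ c : N', T = c • (1 : Matrix (Fin n) (Fin n) N') := by
  have h : ∀ x : Matrix (Fin n) (Fin n) N', T * x = x * T := by
    intro x
    have hx : x ∈ Submodule.span N' (Set.range φ) := by
      rw [repr_span N N' B n hn hdim φ]
      trivial
    induction hx using Submodule.span_induction with
    | mem y hy =>
      obtain ⟨b, rfl⟩ := hy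
      exact hT b
    | zero => rw [mul_zero, zero_mul]
    | add y z _ _ hy hz => rw [mul_add, add_mul, hy, hz]
    | smul c y _ hy => rw [mul_smul_comm, smul_mul_assoc, hy]
  obtain ⟨c, hc⟩ := Matrix.mem_range_scalar_iff_commute_single'.mpr
    (fun i j => (h (Matrix.single i j 1)).symm)
  refine ⟨c, ?_⟩
  rw [← hc, Matrix.scalar_apply, Matrix.smul_one_eq_diagonal]

end Pool.Agent.Helper1.SR
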