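import Pool.Agent.Helper1.SR.Form
import Pool.Agent.Helper1.SR.Span

set_option autoImplicit false

/-!
# SB-R-06: the kernel of `Ghat D → Gal(E/K)` and the cocycle `zD`
Paper: if `x.g = y.g`, then `x.M * y.M⁻¹` commutes with all `φ a`, so it is a scalar `c`
(`repr_scalar`), and `c ^ d = det = 1`.
-/

open scoped TensorProduct

namespace Pool.Agent.Helper1.SR

variable {K Om : Type} [Field K] [Field Om] [Algebra K Om] {A : Type} [Ring A] [Algebra K A]

theorem ghat_scalar [IsAzumaya K A] (D : Datum K Om A) (x y : Ghat D) (h : x.g = y.g) :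
    ∃ c : D.E, c ^ D.d = 1 ∧ x.M = c • y.M := by
  have hT : ∀ a, x.M * y.M⁻¹ * D.φ a = D.φ a * (x.M * y.M⁻¹) := by
    intro a
    have h1 := x.comm a
    have h2 := y.comm a
    rw [h] at h1
    have h3 : mapG y.g (D.φ a) = y.M⁻¹ * (D.φ a * y.M) := by
      rw [← h2, ← mul_assoc, Ghat.inv_mul_self, one_mul]
    calc x.M * y.M⁻¹ * D.φ a = x.M * (y.M⁻¹ * (D.φ a * y.M)) * y.M⁻¹ := by
          simp only [mul_assoc, Ghat.mul_inv_self, mul_one]
      _ = D.φ a * x.M * y.M⁻¹ := by rw [← h3, h1]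
      _ = D.φ a * (x.M * y.M⁻¹) := by rw [mul_assoc]
  obtain ⟨c, hc⟩ := repr_scalar K D.E A D.d D.hd D.hdim D.φ (x.M * y.M⁻¹) hT
  refine ⟨c, ?_, ?_⟩
  · have h1 : (x.M * y.M⁻¹).det = 1 := by
      rw [Matrix.det_mul, Matrix.det_nonsing_inv, x.det, y.det, Ring.inverse_one, one_mul]
    rw [hc, Matrix.det_smul, Matrix.det_one, mul_one, Fintype.card_fin] at h1
    exact h1
  · calc x.M = x.M * y.M⁻¹ * y.M := by rw [mul_assoc, Ghat.inv_mul_self, mul_one]
      _ = c • y.M := by rw [hc, smul_mul_assoc, one_mul]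

/-- the element of `Ghat D` given by a root of unity and an element -/
theorem exists_smul (D : Datum K Om A) (x : Ghat D) (c : D.E) (hc : c ^ D.d = 1) :
    ∃ y : Ghat D, y.g = x.g ∧ y.M = c • x.M := by
  refine ⟨⟨c • x.M, x.g, ?_, ?_⟩, rfl, rfl⟩
  · rw [Matrix.det_smul, x.det, mul_one, Fintype.card_fin, hc]
  · intro a
    rw [smul_mul_assoc, x.comm, mul_smul_comm]

/-- scalars multiples are determined by the scalar -/
theorem smul_inj (D : Datum K Om A) (x : Ghat D) (c c' : D.E) (h : c • x.M = c' • x.M) :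
    c = c' := by
  have hne : NeZero D.d := ⟨D.hd⟩
  have h1 : c • (1 : Matrix (Fin D.d) (Fin D.d) D.E) = c' • 1 := by
    have h2 := congrArg (fun T => T * x.M⁻¹) h
    simpa only [smul_mul_assoc, Ghat.mul_inv_self] using h2
  have h3 := congrFun (congrFun h1 0) 0
  simpa using h3

theorem zD_spec [IsAzumaya K A] (D : Datum K Om A) (g h : D.E ≃ₐ[K] D.E) :
    (lift D g * lift D h).M = zD D g h • (lift D (g * h)).M := by
  classical
  have H : ∃ c : D.E, (lift D g * lift D h).M = c • (lift D (g * h)).M := by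
    obtain ⟨c, _, hc⟩ := ghat_scalar D (lift D g * lift D h) (lift D (g * h))
      (by rw [Ghat.mul_g, lift_g, lift_g, lift_g])
    exact ⟨c, hc⟩
  have h1 : zD D g h = H.choose := by
    unfold zD
    rw [dif_pos H]
  rw [h1]
  exact H.choose_spec

theorem zD_pow [IsAzumaya K A] (D : Datum K Om A) (g h : D.E ≃ₐ[K] D.E) :
    zD D g h ^ D.d = 1 := by
  obtain ⟨c, hc1, hc⟩ := ghat_scalar D (lift D g * lift D h) (lift D (g * h))
    (by rw [Ghat.mul_g, lift_g, lift_g, lift_g])
  have h1 : zD D g h = c := smul_inj D (lift D (g * h)) _ _ ((zD_spec D g h).symm.trans hc)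
  rw [h1]
  exact hc1

theorem zD_cocycle [IsAzumaya K A] (D : Datum K Om A) : Cocycle K D.E (zD D) := by
  refine ⟨fun g h h0 => ?_, fun g h k => ?_⟩
  · have h1 := zD_pow D g h
    rw [h0, zero_pow D.hd] at h1
    exact zero_ne_one h1
  · have e1 : (lift D g * lift D h * lift D k).M =
        (zD D g h * zD D (g * h) k) • (lift D (g * h * k)).M := by
      rw [mul_smul, ← zD_spec, Ghat.mul_M (lift D g * lift D h), Ghat.mul_g, lift_g, lift_g, zD_spec,
        Ghat.mul_M (lift D (g * h)), lift_g, smul_mul_assoc]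
    have e2 : (lift D g * (lift D h * lift D k)).M =
        (g (zD D h k) * zD D g (h * k)) • (lift D (g * h * k)).M := by
      rw [mul_smul, mul_assoc g h k, ← zD_spec, Ghat.mul_M (lift D g), zD_spec, lift_g, mapG_smul,
        Ghat.mul_M (lift D g), lift_g, mul_smul_comm]
    rw [mul_assoc, e2] at e1
    exact (smul_inj D _ _ _ e1).symm

end Pool.Agent.Helper1.SR
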