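import Pool.Agent.Helper1.SR.FinGal

set_option autoImplicit false

/-!
# SB-R-19: functoriality of twisted forms
Paper: `φ₁ : N1 ⊗ B → M_n(W1)`, `c ⊗ b ↦ c • j(φ b)` with `j` the inclusion `W → W1`, and
`P₁ g = j(P (ρ g))`.  All relations are the images under `j` of the relations for `φ`, `P`, because
`g ∘ j = j ∘ ρ g`.  Dimension: `finrank (N1 ⊗ B) = finrank B` (`Module.finrank_baseChange`).  Locally
constant: if `P` depends only on the restriction to the finite `N₀`, then `P₁` depends only on the
restriction to `N1(j N₀)` (generated by finitely many algebraic elements, so finite over `N1`): if `g`,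
`g'` agree on `j N₀`, then `ρ g`, `ρ g'` agree on `N₀`.
-/

open scoped TensorProduct

namespace Pool.Agent.Helper1.SR

theorem twI_base (N W N1 W1 : Type) [Field N] [Field W] [Field N1] [Field W1] [Algebra N W]
    [Algebra N1 W1] [Algebra N N1] [Algebra W W1] [Algebra N W1] [IsScalarTower N W W1]
    [IsScalarTower N N1 W1] (ρ : (W1 ≃ₐ[N1] W1) →* (W ≃ₐ[N] W))
    (hρ : ∀ g x, algebraMap W W1 (ρ g x) = g (algebraMap W W1 x)) (B : Type) [Ring B]
    [Algebra N B] (z : (W ≃ₐ[N] W) → (W ≃ₐ[N] W) → W) (hB : TwI N W B z) :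
    TwI N1 W1 (N1 ⊗[N] B) (fun g h => algebraMap W W1 (z (ρ g) (ρ h))) := by
  classical
  obtain ⟨n, φ, P, hn, hdim, hu, hcomm, hmul, N₀, hN₀, hloc⟩ := hB
  let j : W →ₐ[N] W1 := IsScalarTower.toAlgHom N W W1
  let J : Matrix (Fin n) (Fin n) W →ₐ[N] Matrix (Fin n) (Fin n) W1 := j.mapMatrix
  have hJ : ∀ M i k, J M i k = algebraMap W W1 (M i k) := fun M i k => rfl
  have hJG : ∀ (g : W1 ≃ₐ[N1] W1) (M : Matrix (Fin n) (Fin n) W), mapG g (J M) = J (mapG (ρ g) M) := by
    intro g M
    ext i k
    exact (hρ g (M i k)).symm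
  have hJs : ∀ (c : W) (M : Matrix (Fin n) (Fin n) W), J (c • M) = algebraMap W W1 c • J M := by
    intro c M
    ext i k
    rw [hJ, Matrix.smul_apply, Matrix.smul_apply, hJ, smul_eq_mul, smul_eq_mul, map_mul]
  let φ₁ : N1 ⊗[N] B →ₐ[N1] Matrix (Fin n) (Fin n) W1 :=
    Algebra.TensorProduct.lift (Algebra.ofId N1 _) (J.comp φ) (fun x y => Algebra.commutes x _)
  have hφ₁ : ∀ (c : N1) (b : B), φ₁ (c ⊗ₜ b) = c • J (φ b) := by
    intro c b
    refine (Algebra.TensorProduct.lift_tmul _ _ _ _ _).trans ?_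
    rw [Algebra.smul_def]
    rfl
  refine ⟨n, φ₁, fun g => J (P (ρ g)), hn, ?_, fun g => (hu (ρ g)).map J, ?_, ?_, ?_⟩
  · rw [Module.finrank_baseChange, hdim]
  · intro g t
    induction t using TensorProduct.induction_on with
    | zero =>
      have h0 : mapG g (0 : Matrix (Fin n) (Fin n) W1) = 0 := by
        ext i k
        simp [mapG]
      rw [map_zero, h0, mul_zero, zero_mul]
    | tmul c b =>
      have h1 : mapG g (c • J (φ b)) = c • mapG g (J (φ b)) := by
        ext i k
        simp [mapG]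
      rw [hφ₁, h1, hJG, mul_smul_comm, smul_mul_assoc, ← map_mul, ← map_mul, hcomm]
    | add x y hx hy =>
      have h2 : mapG g (φ₁ x + φ₁ y) = mapG g (φ₁ x) + mapG g (φ₁ y) := by
        ext i k
        simp [mapG]
      rw [map_add, h2, mul_add, add_mul, hx, hy]
  · intro g h
    change J (P (ρ g)) * mapG g (J (P (ρ h))) = algebraMap W W1 (z (ρ g) (ρ h)) • J (P (ρ (g * h)))
    rw [hJG, ← map_mul, hmul, hJs, map_mul ρ]
  · let b := Module.finBasis N N₀
    let S : Set W1 := Set.range fun i => j (b i : W)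
    have hS : S.Finite := Set.finite_range _
    have : Finite S := hS
    refine ⟨IntermediateField.adjoin N1 S, ?_, ?_⟩
    · refine IntermediateField.finiteDimensional_adjoin (K := N1) (S := S) ?_
      rintro _ ⟨i, rfl⟩
      have h3 : IsIntegral N (b i : N₀) := Algebra.IsIntegral.isIntegral _
      have h4 : IsIntegral N ((j.comp N₀.val) (b i)) := h3.map (j.comp N₀.val)
      exact h4.tower_top
    · intro g g' hgg
      have h5 : P (ρ g) = P (ρ g') := by
        refine hloc _ _ fun x hx => ?_
        apply (algebraMap W W1).injective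
        rw [hρ, hρ]
        have h6 : ∀ y : N₀, g (j (y : W)) = g' (j (y : W)) := by
          intro y
          rw [← b.sum_repr y]
          have h7 : ((∑ i, b.repr y i • b i : N₀) : W) = ∑ i, b.repr y i • (b i : W) := by
            rw [IntermediateField.coe_sum]
            rfl
          rw [h7, map_sum, map_sum, map_sum]
          refine Finset.sum_congr rfl fun i _ => ?_
          rw [map_smul]
          have h8 : ∀ (g : W1 ≃ₐ[N1] W1) (c : N) (w : W1), g (c • w) = c • g w := by
            intro g c w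
            rw [← algebraMap_smul N1 c w, map_smul, algebraMap_smul]
          rw [h8, h8, hgg _ (IntermediateField.subset_adjoin N1 S ⟨i, rfl⟩)]
        exact h6 ⟨x, hx⟩
      change J (P (ρ g)) = J (P (ρ g'))
      rw [h5]

end Pool.Agent.Helper1.SR
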