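import Pool.Agent.Helper1.SR.TwIU
import Pool.Agent.Helper1.SR.TwIB
import Pool.Agent.Helper1.SR.Ker

set_option autoImplicit false

/-!
# SB-R-22: comparison with `A` over `L` (R4)
Paper: the datum gives `TwI K Om A (fun g g' => zD (g|E) (g'|E))`: `φ` and `P g = (lift (g|E)).M`
mapped to `Om`; `P` is locally constant because it depends only on `g|E` and `E` is finite
(`datum_twI`).  `twI_base` with `ρ` = restriction of scalars `Gal(Om/L) → Gal(Om/K)` gives `L ⊗ A`
with the cocycle `zD (g|E) (g'|E)`.  The form `B` over `F` with cocycle `z` and `twI_base` with the given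
`ρ` give `L ⊗ B` with the cocycle `algebraMap (z (ρ g) (ρ g')) = zD (h (ρ g)) (h (ρ g'))`.  By `hh`
`h (ρ g) = g|E`, so the cocycles agree; `twI_unique` over `L` (`Om/L` is Galois: characteristic zero,
algebraic, `Om` algebraically closed).
-/

open scoped TensorProduct

namespace Pool.Agent.Helper1.SR

open Pool.Agent.Helper8.BR (BrEq Az)

variable {K Om : Type} [Field K] [Field Om] [Algebra K Om] {A : Type} [Ring A] [Algebra K A]

theorem datum_twI [IsAzumaya K A] (D : Datum K Om A) :
    TwI K Om A (fun g g' => ((zD D (AlgEquiv.restrictNormalHom D.E g)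
      (AlgEquiv.restrictNormalHom D.E g') : D.E) : Om)) := by
  have hval : ∀ (g : Om ≃ₐ[K] Om) (M : Matrix (Fin D.d) (Fin D.d) D.E),
      mapG g (D.E.val.mapMatrix M) =
        D.E.val.mapMatrix (mapG (AlgEquiv.restrictNormalHom D.E g) M) := by
    intro g M
    ext i j
    have h1 : ((AlgEquiv.restrictNormalHom D.E g (M i j) : D.E) : Om) = g ((M i j : D.E) : Om) :=
      AlgEquiv.restrictNormal_commutes g D.E (M i j)
    exact h1.symm
  refine ⟨D.d, D.E.val.mapMatrix.comp D.φ,
    fun g => D.E.val.mapMatrix (lift D (AlgEquiv.restrictNormalHom D.E g)).M,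
    D.hd, D.hdim, fun g => ?_, fun g b => ?_, fun g g' => ?_, ?_⟩
  · refine IsUnit.map _ ?_
    rw [Matrix.isUnit_iff_isUnit_det, (lift D (AlgEquiv.restrictNormalHom D.E g)).det]
    exact isUnit_one
  · have h1 := (lift D (AlgEquiv.restrictNormalHom D.E g)).comm b
    rw [lift_g] at h1
    rw [AlgHom.comp_apply, hval, ← map_mul, ← map_mul, h1]
  · have h1 := zD_spec D (AlgEquiv.restrictNormalHom D.E g) (AlgEquiv.restrictNormalHom D.E g')
    rw [Ghat.mul_M, lift_g] at h1
    rw [hval, ← map_mul, h1]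
    have h2 : AlgEquiv.restrictNormalHom D.E (g * g') =
        AlgEquiv.restrictNormalHom D.E g * AlgEquiv.restrictNormalHom D.E g' := map_mul _ _ _
    rw [← h2]
    ext i j
    rfl
  · refine ⟨D.E, D.fin, fun g g' hgg => ?_⟩
    have h1 : AlgEquiv.restrictNormalHom D.E g = AlgEquiv.restrictNormalHom D.E g' := by
      apply AlgEquiv.ext
      intro x
      apply Subtype.ext
      have h1 := AlgEquiv.restrictNormal_commutes g D.E x
      have h2 := AlgEquiv.restrictNormal_commutes g' D.E x
      exact h1.trans ((hgg (x : Om) x.2).trans h2.symm)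
    change D.E.val.mapMatrix _ = D.E.val.mapMatrix _
    rw [h1]

/-- (R4) comparison with the algebra `A` over a field `L` between `K` and `Om` whose Galois group
maps to `Gal(W/F)` -/
theorem form_compare [CharZero K] [IsAzumaya K A] (D : Datum K Om A) (F W L : Type) [Field F]
    [Field W] [Field L] [Algebra F W] [Algebra W Om] [Algebra F Om] [IsScalarTower F W Om]
    [Algebra K L] [Algebra L Om] [IsScalarTower K L Om] [Algebra F L] [IsScalarTower F L Om]
    [IsAlgClosed Om] [Algebra.IsAlgebraic L Om]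
    (ρ : (Om ≃ₐ[L] Om) →* (W ≃ₐ[F] W))
    (hρ : ∀ g x, algebraMap W Om (ρ g x) = g (algebraMap W Om x))
    (h : (W ≃ₐ[F] W) →* (D.E ≃ₐ[K] D.E))
    (hh : ∀ (g : Om ≃ₐ[L] Om) (e : D.E), ((h (ρ g) e : D.E) : Om) = g (e : Om))
    (B : Type) [Ring B] [Algebra F B] [IsAzumaya F B] (hB : Form D F W h B) :
    BrEq L (L ⊗[K] A) (L ⊗[F] B) := by
  have hcL : CharZero L := charZero_of_injective_algebraMap (algebraMap K L).injective
  have hac : IsAlgClosure L Om := ⟨inferInstance, inferInstance⟩
  have hgal : IsGalois L Om := IsAlgClosure.isGalois L Om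
  have hA : IsAzumaya L (L ⊗[K] A) := Pool.Agent.Helper8.BR.az_baseChange K L A
  have hB' : IsAzumaya L (L ⊗[F] B) := Pool.Agent.Helper8.BR.az_baseChange F L B
  obtain ⟨z, hz, hz2⟩ := hB
  have T1 := twI_base K Om L Om (AlgEquiv.restrictScalarsHom K) (fun g x => rfl) A _ (datum_twI D)
  have T2 := twI_base F W L Om ρ hρ B z hz
  have hres : ∀ g : Om ≃ₐ[L] Om,
      h (ρ g) = AlgEquiv.restrictNormalHom D.E (AlgEquiv.restrictScalarsHom K g) := by
    intro g
    apply AlgEquiv.ext
    intro e
    apply Subtype.ext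
    rw [hh g e]
    exact (AlgEquiv.restrictNormal_commutes (AlgEquiv.restrictScalarsHom K g) D.E e).symm
  have heq : (fun g g' : Om ≃ₐ[L] Om => algebraMap W Om (z (ρ g) (ρ g'))) =
      (fun g g' : Om ≃ₐ[L] Om => algebraMap Om Om
        ((zD D (AlgEquiv.restrictNormalHom D.E (AlgEquiv.restrictScalarsHom K g))
      (AlgEquiv.restrictNormalHom D.E (AlgEquiv.restrictScalarsHom K g')) : D.E) : Om)) := by
    funext g g'
    rw [hz2, hres, hres]
    rfl
  rw [heq] at T2
  exact twI_unique L Om _ _ _ T1 T2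

end Pool.Agent.Helper1.SR
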