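import Pool.Agent.Helper1.SR.Form

set_option autoImplicit false

/-!
# SB-R-03: finite Galois subextensions
-/

open scoped TensorProduct

namespace Pool.Agent.Helper1.SR

/-- every finite set lies in a finite Galois subextension containing a given finite one -/
theorem exists_finite_galois (N W : Type) [Field N] [Field W] [Algebra N W] [IsGalois N W]
    (S : Set W) (hS : S.Finite) (E0 : IntermediateField N W) [FiniteDimensional N E0] :
    ∃ E : IntermediateField N W, FiniteDimensional N E ∧ IsGalois N E ∧ S ⊆ E ∧ E0 ≤ E := by
  have hfin : FiniteDimensional N (IntermediateField.adjoin N S) :=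
    have : Finite S := hS
    IntermediateField.finiteDimensional_adjoin (K := N) (S := S) fun x _ => Algebra.IsIntegral.isIntegral x
  have hsup : FiniteDimensional N (IntermediateField.adjoin N S ⊔ E0 : IntermediateField N W) :=
    IntermediateField.finiteDimensional_sup _ _
  refine ⟨IntermediateField.normalClosure N (IntermediateField.adjoin N S ⊔ E0 : IntermediateField N W) W, ?_, ?_, ?_, ?_⟩
  · exact normalClosure.is_finiteDimensional N (IntermediateField.adjoin N S ⊔ E0 : IntermediateField N W) W
  · exact IsGalois.normalClosure N (IntermediateField.adjoin N S ⊔ E0 : IntermediateField N W) W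
  · intro x hx
    exact (IntermediateField.le_normalClosure _) (le_sup_left (a := IntermediateField.adjoin N S) (b := E0)
      (IntermediateField.subset_adjoin N S hx))
  · exact le_sup_right.trans (IntermediateField.le_normalClosure _)

/-- if `g`, `g'` agree on a Galois subextension, then their restrictions agree, and conversely -/
theorem restrict_eq_iff (N W : Type) [Field N] [Field W] [Algebra N W]
    (E : IntermediateField N W) [Normal N E] (g g' : W ≃ₐ[N] W) :
    AlgEquiv.restrictNormalHom E g = AlgEquiv.restrictNormalHom E g' ↔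
      ∀ x ∈ E, g x = g' x := by
  constructor
  · intro h x hx
    have h1 := AlgEquiv.restrictNormal_commutes g E (⟨x, hx⟩ : E)
    have h2 := AlgEquiv.restrictNormal_commutes g' E (⟨x, hx⟩ : E)
    have h3 : g.restrictNormal E = g'.restrictNormal E := h
    rw [h3, h2] at h1
    exact h1.symm
  · intro h
    apply AlgEquiv.ext
    intro x
    apply Subtype.ext
    have h1 := AlgEquiv.restrictNormal_commutes g E x
    have h2 := AlgEquiv.restrictNormal_commutes g' E x
    exact h1.trans ((h (x : W) x.2).trans h2.symm)

theorem restrict_apply (N W : Type) [Field N] [Field W] [Algebra N W]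
    (E : IntermediateField N W) [Normal N E] (g : W ≃ₐ[N] W) (x : E) :
    ((AlgEquiv.restrictNormalHom E g x : E) : W) = g (x : W) := by
  exact AlgEquiv.restrictNormal_commutes g E x

theorem restrict_surjective (N W : Type) [Field N] [Field W] [Algebra N W] [Normal N W]
    (E : IntermediateField N W) [Normal N E] :
    Function.Surjective (AlgEquiv.restrictNormalHom (F := N) (K₁ := W) E) := by
  exact AlgEquiv.restrictNormalHom_surjective W

/-- a locally constant function has finitely many values -/
theorem LC.finite_range {N W : Type} [Field N] [Field W] [Algebra N W] [Algebra.IsAlgebraic N W]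
    {X : Type} {f : (W ≃ₐ[N] W) → X} (hf : LC N W f) : (Set.range f).Finite := by
  obtain ⟨N', hN', h⟩ := hf
  let r : (W ≃ₐ[N] W) → (N' →ₐ[N] W) := fun g => (g : W →ₐ[N] W).comp N'.val
  have hfin : Finite (N' →ₐ[N] W) := inferInstance
  have hfin' : Finite (Set.range r) := inferInstance
  refine (Set.finite_range (fun φ : Set.range r => f φ.2.choose)).subset ?_
  rintro _ ⟨g, rfl⟩
  refine ⟨⟨r g, g, rfl⟩, ?_⟩
  have h1 : r (Exists.choose (⟨g, rfl⟩ : ∃ y, r y = r g)) = r g := Exists.choose_spec (⟨g, rfl⟩ : ∃ y, r y = r g)
  refine h _ _ fun x hx => ?_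
  exact DFunLike.congr_fun h1 (⟨x, hx⟩ : N')

/-- a locally constant function factors through a finite Galois group -/
theorem LC.exists_galois {N W : Type} [Field N] [Field W] [Algebra N W] [IsGalois N W]
    {X : Type} {f : (W ≃ₐ[N] W) → X} (hf : LC N W f) :
    ∃ E : IntermediateField N W, FiniteDimensional N E ∧ IsGalois N E ∧
      ∀ g g' : W ≃ₐ[N] W, (∀ x ∈ E, g x = g' x) → f g = f g' := by
  obtain ⟨N', hN', h⟩ := hf
  obtain ⟨E, hE1, hE2, -, hE3⟩ := exists_finite_galois N W ∅ Set.finite_empty N'
  exact ⟨E, hE1, hE2, fun g g' hg => h g g' fun x hx => hg x (hE3 hx)⟩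

end Pool.Agent.Helper1.SR
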