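import Pool.Agent.Helper1.SR.Split
import Pool.Agent.Helper1.SR.FinGal
import Pool.Agent.Helper1.SR.Skol

set_option autoImplicit false

/-!
# SB-R-05: existence of a datum
Paper: `φ : A → M_d(Om)` (`exists_repr`).  The entries of `φ` on a basis of `A` lie in a finite
Galois `E₀` (`exists_finite_galois`), so `φ` has values in `M_d(E₀)` (`repr_restrict`).  For `g` in
`Gal(E₀/K)` the maps `φ` and `a ↦ g (φ a)` are two representations, so there is `M_g` in
`GL_d(E₀)` with `M_g g(φ a) = φ(a) M_g` (`exists_conj`).  Take `E` finite Galois containing `E₀`,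
the `d`-th roots of unity and for each of the finitely many `g` a `d`-th root `λ_g` of
`1 / det M_g`.  For `g` in `Gal(E/K)` the matrix `λ M_{g|E₀}` has determinant one.
-/

open scoped TensorProduct

namespace Pool.Agent.Helper1.SR

theorem repr_restrict (K Om A : Type) [Field K] [Field Om] [Algebra K Om] [Ring A] [Algebra K A]
    (E : IntermediateField K Om) (n : ℕ) (φ : A →ₐ[K] Matrix (Fin n) (Fin n) Om)
    (h : ∀ a i j, φ a i j ∈ E) : ∃ ψ : A →ₐ[K] Matrix (Fin n) (Fin n) E,
      ∀ a, (ψ a).map (algebraMap E Om) = φ a := by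
  have hinj : Function.Injective (fun M : Matrix (Fin n) (Fin n) E => M.map (algebraMap E Om)) :=
    Matrix.map_injective (algebraMap E Om).injective
  have hval : ∀ a, (Matrix.of fun i j => (⟨φ a i j, h a i j⟩ : E)).map (algebraMap E Om) = φ a := by
    intro a
    ext i j
    rfl
  refine ⟨{ toFun := fun a => Matrix.of fun i j => (⟨φ a i j, h a i j⟩ : E)
            map_one' := ?_
            map_mul' := ?_
            map_zero' := ?_
            map_add' := ?_
            commutes' := ?_ }, hval⟩
  · apply hinj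
    beta_reduce
    rw [hval, map_one, Matrix.map_one _ (map_zero _) (map_one _)]
  · intro a b
    apply hinj
    beta_reduce
    rw [hval, map_mul, Matrix.map_mul, hval, hval]
  · apply hinj
    beta_reduce
    rw [hval, map_zero, Matrix.map_zero _ (map_zero _)]
  · intro a b
    apply hinj
    beta_reduce
    rw [hval, map_add, Matrix.map_add _ (map_add _), hval, hval]
  · intro c
    apply hinj
    beta_reduce
    rw [hval, AlgHom.commutes]
    ext i j
    rw [Matrix.map_apply, Matrix.algebraMap_matrix_apply, Matrix.algebraMap_matrix_apply]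
    split_ifs
    · rfl
    · exact (map_zero (algebraMap E Om)).symm

/-- (R0) every central simple algebra has a datum -/
theorem exists_datum (K Om A : Type) [Field K] [CharZero K] [Field Om] [Algebra K Om]
    [IsAlgClosed Om] [Algebra.IsAlgebraic K Om] [Ring A] [Algebra K A] [IsAzumaya K A] :
    Nonempty (Datum K Om A) := by
  classical
  obtain ⟨n, φ, hn, hdim⟩ := exists_repr K Om A
  have hclo : IsAlgClosure K Om := ⟨inferInstance, inferInstance⟩
  have hgal : IsGalois K Om := inferInstance
  have hfd : FiniteDimensional K A :=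
    Module.finite_of_finrank_pos (by rw [hdim]; positivity)
  -- the entries lie in a finite Galois extension
  obtain ⟨E₀, hE₀f, hE₀g, hE₀S, -⟩ := exists_finite_galois K Om
    (Set.range fun x : Fin (Module.finrank K A) × Fin n × Fin n =>
      φ (Module.finBasis K A x.1) x.2.1 x.2.2) (Set.finite_range _) ⊥
  have hent : ∀ a i j, φ a i j ∈ E₀ := by
    intro a i j
    have h1 : φ a i j = ∑ l, algebraMap K Om ((Module.finBasis K A).repr a l) *
        φ (Module.finBasis K A l) i j := by
      conv_lhs => rw [← (Module.finBasis K A).sum_repr a]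
      rw [map_sum, Matrix.sum_apply]
      refine Finset.sum_congr rfl fun l _ => ?_
      rw [map_smul, Matrix.smul_apply, Algebra.smul_def]
    rw [h1]
    exact sum_mem fun l _ => mul_mem (E₀.algebraMap_mem _) (hE₀S ⟨(l, i, j), rfl⟩)
  obtain ⟨ψ, hψ⟩ := repr_restrict K Om A E₀ n φ hent
  -- the matrices implementing the Galois group
  have hM : ∀ g : E₀ ≃ₐ[K] E₀, ∃ M : Matrix (Fin n) (Fin n) E₀, IsUnit M ∧
      ∀ a, M * (ψ a).map g = ψ a * M := fun g =>
    exists_conj K E₀ A n hn hdim ψ ((g : E₀ →ₐ[K] E₀).mapMatrix.comp ψ)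
  choose M hMu hMc using hM
  -- the roots of the determinants
  have hlam : ∀ g : E₀ ≃ₐ[K] E₀, ∃ l : Om, l ^ n = (algebraMap E₀ Om (M g).det)⁻¹ := fun g =>
    IsAlgClosed.exists_pow_nat_eq _ (Nat.pos_of_ne_zero hn)
  choose lam hlam using hlam
  have hfin1 : {x : Om | x ^ n = 1}.Finite := by
    have h1 : {x : Om | x ^ n = 1} = ((Polynomial.nthRootsFinset n (1 : Om)) : Set Om) := by
      ext x
      simp [Polynomial.mem_nthRootsFinset (Nat.pos_of_ne_zero hn)]
    rw [h1]
    exact Finset.finite_toSet _
  obtain ⟨E, hEf, hEg, hES, hEE⟩ := exists_finite_galois K Om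
    (Set.range lam ∪ {x : Om | x ^ n = 1}) ((Set.finite_range _).union hfin1) E₀
  have hroots : ∀ x : Om, x ^ n = 1 → x ∈ E := fun x hx => hES (Or.inr hx)
  refine ⟨{ d := n, hd := hn, hdim := hdim, E := E, fin := hEf, gal := hEg
            φ := (IntermediateField.inclusion hEE).mapMatrix.comp ψ, surj := ?_, roots := hroots }⟩
  intro g
  obtain ⟨G, hG⟩ := restrict_surjective K Om E g
  obtain ⟨g₀, hg₀⟩ : ∃ g₀, g₀ = AlgEquiv.restrictNormalHom (F := K) (K₁ := Om) E₀ G := ⟨_, rfl⟩
  have hcompat : ∀ x : E₀, g (IntermediateField.inclusion hEE x) = IntermediateField.inclusion hEE (g₀ x) := by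
    intro x
    apply Subtype.ext
    rw [← hG, restrict_apply, hg₀]
    change G (x : Om) = ((AlgEquiv.restrictNormalHom (F := K) (K₁ := Om) E₀ G x : E₀) : Om)
    rw [restrict_apply]
  obtain ⟨l, hl⟩ : ∃ l : E, (l : Om) = lam g₀ := ⟨⟨lam g₀, hES (Or.inl ⟨g₀, rfl⟩)⟩, rfl⟩
  have hdet0 : (M g₀).det ≠ 0 := by
    have h1 := (Matrix.isUnit_iff_isUnit_det _).1 (hMu g₀)
    exact h1.ne_zero
  refine ⟨l • (M g₀).map (IntermediateField.inclusion hEE), ?_, fun a => ?_⟩
  · rw [Matrix.det_smul, Fintype.card_fin]
    have h1 : ((M g₀).map (IntermediateField.inclusion hEE)).det =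
        IntermediateField.inclusion hEE (M g₀).det := by
      rw [← AlgHom.mapMatrix_apply, AlgHom.map_det]
    rw [h1]
    apply Subtype.ext
    change ((l : Om)) ^ n * ((M g₀).det : Om) = 1
    rw [hl, hlam]
    have h2 : (algebraMap E₀ Om (M g₀).det) ≠ 0 := by
      rw [Ne, map_eq_zero]
      exact hdet0
    exact inv_mul_cancel₀ h2
  · have h1 : mapG g ((IntermediateField.inclusion hEE).mapMatrix.comp ψ a) =
        ((ψ a).map g₀).map (IntermediateField.inclusion hEE) := by
      ext i j
      exact congrArg Subtype.val (hcompat (ψ a i j))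
    rw [h1]
    change l • (M g₀).map (IntermediateField.inclusion hEE) * ((ψ a).map g₀).map (IntermediateField.inclusion hEE) =
      (ψ a).map (IntermediateField.inclusion hEE) * l • (M g₀).map (IntermediateField.inclusion hEE)
    rw [smul_mul_assoc, mul_smul_comm, ← Matrix.map_mul, ← Matrix.map_mul, hMc]

end Pool.Agent.Helper1.SR
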