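import Mathlib
import Pool.Agent.Helper8.BR.Group

set_option autoImplicit false

/-!
# PROJECT SB (MP_ad201b_nt), block R: Brauer classes given by scalar cocycles

Conventions.  `Gal(N'/N)` is `N' ≃ₐ[N] N'`.  A matrix algebra homomorphism
`φ : B →ₐ[N] M_n(N')` together with invertible matrices `P g` such that
`P g * g(φ b) = φ b * P g` describes the semilinear action of the Galois group on `M_n(N')` whose
fixed algebra is `B`, and `P g * g(P h) = z g h • P (g h)` says that `B` has Brauer class `z`.
-/

open scoped TensorProduct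

namespace Pool.Agent.Helper1.SR

open Pool.Agent.Helper8.BR (BrEq Az)

/-- apply a ring automorphism of the coefficients to a square matrix -/
abbrev mapG {N N' : Type} [Field N] [Field N'] [Algebra N N'] {n : ℕ}
    (g : N' ≃ₐ[N] N') (M : Matrix (Fin n) (Fin n) N') : Matrix (Fin n) (Fin n) N' :=
  M.map g

/-- `B` is the twisted form of a matrix algebra over `N'` with scalar cocycle `z`
(finite level: used for `N'/N` finite Galois). -/
def Tw (N N' : Type) [Field N] [Field N'] [Algebra N N'] (B : Type) [Ring B] [Algebra N B]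
    (z : (N' ≃ₐ[N] N') → (N' ≃ₐ[N] N') → N') : Prop :=
  ∃ (n : ℕ) (φ : B →ₐ[N] Matrix (Fin n) (Fin n) N')
    (P : (N' ≃ₐ[N] N') → Matrix (Fin n) (Fin n) N'),
    n ≠ 0 ∧ Module.finrank N B = n * n ∧ (∀ g, IsUnit (P g)) ∧
    (∀ g b, P g * mapG g (φ b) = φ b * P g) ∧
    (∀ g h, P g * mapG g (P h) = z g h • P (g * h))

/-- the 2-cocycle identity -/
def Cocycle (N N' : Type) [Field N] [Field N'] [Algebra N N']
    (z : (N' ≃ₐ[N] N') → (N' ≃ₐ[N] N') → N') : Prop :=
  (∀ g h, z g h ≠ 0) ∧ ∀ g h k, z g h * z (g * h) k = g (z h k) * z g (h * k)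

/-- a splitting datum of an algebra `A` over `K` inside the algebraically closed field `Om`:
a finite Galois subextension `E`, a representation of `A` by matrices over `E`, for every `g` in
`Gal(E/K)` a matrix of determinant one implementing the action of `g`, and the `d`-th roots of
unity are in `E`. -/
structure Datum (K Om : Type) [Field K] [Field Om] [Algebra K Om] (A : Type) [Ring A]
    [Algebra K A] where
  /-- the degree -/
  d : ℕ
  hd : d ≠ 0
  hdim : Module.finrank K A = d * d
  /-- the splitting field -/
  E : IntermediateField K Om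
  fin : FiniteDimensional K E
  gal : IsGalois K E
  /-- the representation -/
  φ : A →ₐ[K] Matrix (Fin d) (Fin d) E
  /-- every `g` is implemented by a matrix of determinant one -/
  surj : ∀ g : E ≃ₐ[K] E, ∃ M : Matrix (Fin d) (Fin d) E, M.det = 1 ∧
    ∀ a, M * mapG g (φ a) = φ a * M
  roots : ∀ x : Om, x ^ d = 1 → x ∈ E

attribute [instance] Datum.fin Datum.gal

/-- the group of pairs `(M, g)`, `g` in `Gal(E/K)`, `M` a matrix of determinant one implementing
the action of `g` on the algebra: an extension of `Gal(E/K)` by the `d`-th roots of unity. -/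
structure Ghat {K Om : Type} [Field K] [Field Om] [Algebra K Om] {A : Type} [Ring A]
    [Algebra K A] (D : Datum K Om A) where
  /-- the matrix -/
  M : Matrix (Fin D.d) (Fin D.d) D.E
  /-- the Galois element -/
  g : D.E ≃ₐ[K] D.E
  det : M.det = 1
  comm : ∀ a, M * mapG g (D.φ a) = D.φ a * M

end Pool.Agent.Helper1.SR
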