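import Pool.Agent.Helper1.SR.InvDim
import Pool.Agent.Helper1.SR.AzDesc

set_option autoImplicit false

/-!
# SB-R-13: the fixed algebra of a family `P`
Paper: `B = Inv P P` is a subalgebra of `M_n(N')` over `N` (closed under products:
`P_g g(T S) = P_g g(T) g(S) = T P_g g(S) = T S P_g`; contains `1`).  It has dimension `n²`
(`inv_finrank`), and `N' ⊗ B → M_n(N')` is bijective: surjective by `inv_span`, dimensions agree.
So `B` is Azumaya (`az_of_baseChange_matrix`) and the inclusion and `P` give `Tw N N' B z`.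
-/

open scoped TensorProduct

namespace Pool.Agent.Helper1.SR

open Pool.Agent.Helper8.BR (BrEq Az)

theorem exists_fixed (N N' : Type) [Field N] [Field N'] [Algebra N N'] [FiniteDimensional N N']
    [IsGalois N N'] (n : ℕ) (hn : n ≠ 0) (z : (N' ≃ₐ[N] N') → (N' ≃ₐ[N] N') → N')
    (P : (N' ≃ₐ[N] N') → Matrix (Fin n) (Fin n) N') (hP : Fam N N' n z P) :
    ∃ B : Az N, Tw N N' B z := by
  have h1 : (1 : Matrix (Fin n) (Fin n) N') ∈ Inv P P := by
    intro g
    rw [mapR_eq_mapG, mapG_one, Matrix.mul_one, Matrix.one_mul]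
  have hmul : ∀ x y : Matrix (Fin n) (Fin n) N', x ∈ Inv P P → y ∈ Inv P P → x * y ∈ Inv P P := by
    intro x y hx hy g
    rw [mapR_mul, ← Matrix.mul_assoc, hx g, Matrix.mul_assoc, hy g, Matrix.mul_assoc]
  obtain ⟨B, hB⟩ : ∃ B : Subalgebra N (Matrix (Fin n) (Fin n) N'),
      B = Submodule.toSubalgebra (Inv P P) h1 hmul := ⟨_, rfl⟩
  have hmem : ∀ x, x ∈ B ↔ x ∈ Inv P P := by
    intro x
    rw [hB]
    rfl
  have hsub : Subalgebra.toSubmodule B = Inv P P := by
    ext x
    exact hmem x
  have hfd : FiniteDimensional N B := by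
    have h2 : FiniteDimensional N (Subalgebra.toSubmodule B) := by
      rw [hsub]
      exact inv_finite hP hP
    exact h2
  have hfr : Module.finrank N B = n * n := by
    have h2 : Module.finrank N (Subalgebra.toSubmodule B) = n * n := by
      rw [hsub]
      exact inv_finrank hP hP
    exact h2
  obtain ⟨f, hf⟩ : ∃ f : N' ⊗[N] B →ₐ[N'] Matrix (Fin n) (Fin n) N',
      ∀ b : B, f (1 ⊗ₜ b) = (b : Matrix (Fin n) (Fin n) N') :=
    ⟨Algebra.TensorProduct.lift (Algebra.ofId N' _) B.val
      (fun x y => Algebra.commutes x (y : Matrix (Fin n) (Fin n) N')), fun b => by simp⟩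
  have hsurj : Function.Surjective f := by
    have h2 : LinearMap.range f.toLinearMap = ⊤ := by
      rw [eq_top_iff, ← inv_span hP hP, Submodule.span_le]
      intro x hx
      exact ⟨1 ⊗ₜ (⟨x, (hmem x).2 hx⟩ : B), hf _⟩
    intro y
    have h3 : y ∈ LinearMap.range f.toLinearMap := by
      rw [h2]
      exact Submodule.mem_top
    obtain ⟨x, hx⟩ := h3
    exact ⟨x, hx⟩
  have hrk : Module.finrank N' (N' ⊗[N] B) = Module.finrank N' (Matrix (Fin n) (Fin n) N') := by
    rw [Module.finrank_baseChange, hfr, Module.finrank_matrix, Module.finrank_self,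
      Fintype.card_fin, mul_one]
  have hinj : Function.Injective f :=
    (LinearMap.injective_iff_surjective_of_finrank_eq_finrank (f := f.toLinearMap) hrk).2 hsurj
  have haz : IsAzumaya N B :=
    az_of_baseChange_matrix N N' B n hn (AlgEquiv.ofBijective f ⟨hinj, hsurj⟩)
  exact ⟨{ carrier := B }, n, B.val, P, hn, hfr, hP.unit, fun g b => (hmem _).1 b.2 g, hP.mul⟩

end Pool.Agent.Helper1.SR
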