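import Pool.Agent.Helper1.SR.TwIE
import Pool.Agent.Helper1.SR.Ker

set_option autoImplicit false

/-!
# SB-R-20: existence of forms (R1)
Paper: for `g`, `g'` the element `zD (h g) (h g')` of `E` is a `d`-th root of unity (`zD_pow`), so it
is the image of a `d`-th root of unity `z g g'` of `W` (`W` is algebraically closed of
characteristic `0`, so `X^d - 1` has `d` roots in `W` and their images are all roots in `Om`).  `z` is a
cocycle: apply `algebraMap W Om` (injective) to the identity, use `zD_cocycle` and `hh.cyc` for the term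
`g (z g' g'')`.  It depends only on `h g`, `h g'`, so it is locally constant by `hh.cont`.  `twI_exists`.
-/

open scoped TensorProduct

namespace Pool.Agent.Helper1.SR

open Pool.Agent.Helper8.BR (BrEq Az)

variable {K Om : Type} [Field K] [Field Om] [Algebra K Om] {A : Type} [Ring A] [Algebra K A]

/-- roots of unity of `Om` come from `W` -/
theorem exists_root (W Om : Type) [Field W] [CharZero W] [IsAlgClosed W] [Field Om]
    [Algebra W Om] (d : ℕ) (hd : d ≠ 0) (x : Om) (hx : x ^ d = 1) :
    ∃ ζ : W, ζ ^ d = 1 ∧ algebraMap W Om ζ = x := by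
  haveI : NeZero d := ⟨hd⟩
  haveI : NeZero (d : W) := ⟨Nat.cast_ne_zero.2 hd⟩
  obtain ⟨ζ, hζ⟩ := HasEnoughRootsOfUnity.exists_primitiveRoot W d
  have h1 : IsPrimitiveRoot (algebraMap W Om ζ) d := hζ.map_of_injective (algebraMap W Om).injective
  obtain ⟨i, _, hi⟩ := h1.eq_pow_of_pow_eq_one hx
  refine ⟨ζ ^ i, ?_, ?_⟩
  · rw [← pow_mul, mul_comm, pow_mul, hζ.pow_eq_one, one_pow]
  · rw [map_pow, hi]

/-- (R1) existence of the form along a good homomorphism -/
theorem form_exists [CharZero K] [IsAzumaya K A] (D : Datum K Om A) (N W : Type) [Field N]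
    [Field W] [Algebra N W] [Algebra W Om] [IsGalois N W] [IsAlgClosed W]
    (h : (W ≃ₐ[N] W) →* (D.E ≃ₐ[K] D.E)) (hh : GoodHom D N W h) :
    ∃ B : Az N, Form D N W h B := by
  haveI : CharZero Om := charZero_of_injective_algebraMap (algebraMap K Om).injective
  haveI : CharZero W := (algebraMap W Om).charZero
  have h1 : ∀ a b : D.E ≃ₐ[K] D.E, ∃ ζ : W, ζ ^ D.d = 1 ∧
      algebraMap W Om ζ = ((zD D a b : D.E) : Om) := by
    intro a b
    apply exists_root W Om D.d D.hd
    have h2 := congrArg (fun e : D.E => (e : Om)) (zD_pow D a b)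
    simpa using h2
  choose Z hZ1 hZ2 using h1
  have hcoc := zD_cocycle D
  have hz : Cocycle N W (fun g g' => Z (h g) (h g')) := by
    refine ⟨fun g g' h0 => ?_, fun g g' k => ?_⟩
    · have h3 := hZ1 (h g) (h g')
      simp only at h0
      rw [h0, zero_pow D.hd] at h3
      exact zero_ne_one h3
    · apply (algebraMap W Om).injective
      have h3 := hh.cyc g (Z (h g') (h k)) (zD D (h g') (h k)) (hZ1 _ _) (hZ2 _ _).symm
      have h4 := congrArg (fun e : D.E => (e : Om)) (hcoc.2 (h g) (h g') (h k))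
      simp only [map_mul, hZ2]
      rw [← h3]
      simpa using h4
  have hlc : ∃ N0 : IntermediateField N W, FiniteDimensional N N0 ∧
      ∀ g g' k k' : W ≃ₐ[N] W, (∀ x ∈ N0, g x = g' x) → (∀ x ∈ N0, k x = k' x) →
        Z (h g) (h k) = Z (h g') (h k') := by
    obtain ⟨N', hfin, hN⟩ := hh.cont
    refine ⟨N', hfin, fun g g' k k' hg hk => ?_⟩
    rw [hN g g' hg, hN k k' hk]
  obtain ⟨B, hB⟩ := twI_exists N W (fun g g' => Z (h g) (h g')) hz hlc
  exact ⟨B, fun g g' => Z (h g) (h g'), hB, fun g g' => hZ2 _ _⟩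

end Pool.Agent.Helper1.SR
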