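import Pool.Agent.Helper1.SR.TwIU
import Pool.Agent.Helper1.SR.TwIB

set_option autoImplicit false

/-!
# SB-R-21: base change and uniqueness of forms (R2, R3)
Paper: R2 is `twI_base` with `W1 = W` and `ρ = AlgEquiv.restrictScalarsHom` (restriction of scalars);
R3: the cocycle of a form is determined, because `algebraMap W Om` is injective; `twI_unique`.
-/

open scoped TensorProduct

namespace Pool.Agent.Helper1.SR

open Pool.Agent.Helper8.BR (BrEq Az)

variable {K Om : Type} [Field K] [Field Om] [Algebra K Om] {A : Type} [Ring A] [Algebra K A]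

/-- (R2) base change of forms inside the same `W` -/
theorem form_base (D : Datum K Om A) (N N1 W : Type) [Field N] [Field N1] [Field W]
    [Algebra N W] [Algebra N N1] [Algebra N1 W] [IsScalarTower N N1 W] [Algebra W Om]
    (h : (W ≃ₐ[N] W) →* (D.E ≃ₐ[K] D.E)) (h1 : (W ≃ₐ[N1] W) →* (D.E ≃ₐ[K] D.E))
    (hh : ∀ g : W ≃ₐ[N1] W, h1 g = h (g.restrictScalars N)) (B : Type) [Ring B] [Algebra N B]
    (hB : Form D N W h B) : Form D N1 W h1 (N1 ⊗[N] B) := by
  obtain ⟨z, hz, hz'⟩ := hB
  let ρ : (W ≃ₐ[N1] W) →* (W ≃ₐ[N] W) :=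
    { toFun := fun g => g.restrictScalars N
      map_one' := rfl
      map_mul' := fun _ _ => rfl }
  refine ⟨fun g g' => algebraMap W W (z (ρ g) (ρ g')),
    twI_base N W N1 W ρ (fun g x => rfl) B z hz, fun g g' => ?_⟩
  rw [hh g, hh g']
  exact hz' (ρ g) (ρ g')

/-- (R3) uniqueness of forms -/
theorem form_unique (D : Datum K Om A) (N W : Type) [Field N] [Field W]
    [Algebra N W] [Algebra W Om] [IsGalois N W] (h : (W ≃ₐ[N] W) →* (D.E ≃ₐ[K] D.E))
    (B B' : Type) [Ring B] [Algebra N B] [IsAzumaya N B] [Ring B'] [Algebra N B']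
    [IsAzumaya N B'] (hB : Form D N W h B) (hB' : Form D N W h B') : BrEq N B B' := by
  obtain ⟨z, hz, hz1⟩ := hB
  obtain ⟨z', hz', hz1'⟩ := hB'
  have h1 : z = z' := by
    funext g g'
    exact (algebraMap W Om).injective ((hz1 g g').trans (hz1' g g').symm)
  subst h1
  exact twI_unique N W z B B' hz hz'

end Pool.Agent.Helper1.SR
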