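import Pool.Agent.Helper1.SR.Defs

set_option autoImplicit false

/-!
# The group structure on `Ghat D`
-/

open scoped TensorProduct

namespace Pool.Agent.Helper1.SR

section mapG

variable {N N' : Type} [Field N] [Field N'] [Algebra N N'] {n : ℕ}

theorem mapG_mul (g : N' ≃ₐ[N] N') (M M' : Matrix (Fin n) (Fin n) N') :
    mapG g (M * M') = mapG g M * mapG g M' :=
  Matrix.map_mul (f := (g : N' →+* N'))

theorem mapG_one (g : N' ≃ₐ[N] N') : mapG g (1 : Matrix (Fin n) (Fin n) N') = 1 :=
  Matrix.map_one g (map_zero g) (map_one g)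

theorem mapG_mapG (g h : N' ≃ₐ[N] N') (M : Matrix (Fin n) (Fin n) N') :
    mapG g (mapG h M) = mapG (g * h) M := by
  ext i j
  simp [mapG]

theorem mapG_id (M : Matrix (Fin n) (Fin n) N') : mapG (1 : N' ≃ₐ[N] N') M = M := by
  ext i j
  simp [mapG]

theorem mapG_smul (g : N' ≃ₐ[N] N') (c : N') (M : Matrix (Fin n) (Fin n) N') :
    mapG g (c • M) = g c • mapG g M := by
  ext i j
  simp [mapG]

theorem mapG_det (g : N' ≃ₐ[N] N') (M : Matrix (Fin n) (Fin n) N') :
    (mapG g M).det = g M.det := by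
  have := (RingHom.map_det (g : N' →+* N') M).symm
  simpa [mapG] using this

end mapG

variable {K Om : Type} [Field K] [Field Om] [Algebra K Om] {A : Type} [Ring A] [Algebra K A]
  {D : Datum K Om A}

namespace Ghat

@[ext] theorem ext' {x y : Ghat D} (h1 : x.M = y.M) (h2 : x.g = y.g) : x = y := by
  cases x
  cases y
  cases h1
  cases h2
  rfl

theorem mul_inv_self (x : Ghat D) : x.M * x.M⁻¹ = 1 :=
  Matrix.mul_nonsing_inv _ (by rw [x.det]; exact isUnit_one)

theorem inv_mul_self (x : Ghat D) : x.M⁻¹ * x.M = 1 :=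
  Matrix.nonsing_inv_mul _ (by rw [x.det]; exact isUnit_one)

/-- multiplication -/
noncomputable def mul (x y : Ghat D) : Ghat D where
  M := x.M * mapG x.g y.M
  g := x.g * y.g
  det := by rw [Matrix.det_mul, mapG_det, x.det, y.det, map_one, one_mul]
  comm := fun a => by
    rw [← mapG_mapG, mul_assoc, ← mapG_mul, y.comm, mapG_mul, ← mul_assoc, x.comm, mul_assoc]

/-- the neutral element -/
noncomputable def one : Ghat D where
  M := 1
  g := 1
  det := Matrix.det_one
  comm := fun a => by rw [mapG_id, one_mul, mul_one]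

/-- the inverse -/
noncomputable def inv (x : Ghat D) : Ghat D where
  M := mapG x.g⁻¹ x.M⁻¹
  g := x.g⁻¹
  det := by rw [mapG_det, Matrix.det_nonsing_inv, x.det, Ring.inverse_one, map_one]
  comm := fun a => by
    have h : x.M⁻¹ * D.φ a = mapG x.g (D.φ a) * x.M⁻¹ := by
      have h1 := x.comm a
      calc x.M⁻¹ * D.φ a = x.M⁻¹ * (D.φ a * x.M) * x.M⁻¹ := by
            rw [mul_assoc, mul_assoc, mul_inv_self, mul_one]
        _ = x.M⁻¹ * (x.M * mapG x.g (D.φ a)) * x.M⁻¹ := by rw [h1]
        _ = mapG x.g (D.φ a) * x.M⁻¹ := by rw [← mul_assoc, inv_mul_self, one_mul]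
    rw [← mapG_mul, h, mapG_mul, mapG_mapG, inv_mul_cancel, mapG_id]

noncomputable instance : Group (Ghat D) where
  mul := mul
  one := one
  inv := inv
  mul_assoc x y z := by
    refine ext' ?_ (mul_assoc x.g y.g z.g)
    change x.M * mapG x.g y.M * mapG (x.g * y.g) z.M = x.M * mapG x.g (y.M * mapG y.g z.M)
    rw [mapG_mul, mapG_mapG, mul_assoc]
  one_mul x := by
    refine ext' ?_ (one_mul x.g)
    change 1 * mapG 1 x.M = x.M
    rw [mapG_id, one_mul]
  mul_one x := by
    refine ext' ?_ (mul_one x.g)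
    change x.M * mapG x.g 1 = x.M
    rw [mapG_one, mul_one]
  inv_mul_cancel x := by
    refine ext' ?_ (inv_mul_cancel x.g)
    change mapG x.g⁻¹ x.M⁻¹ * mapG x.g⁻¹ x.M = 1
    rw [← mapG_mul, inv_mul_self, mapG_one]

@[simp] theorem mul_M (x y : Ghat D) : (x * y).M = x.M * mapG x.g y.M := rfl
@[simp] theorem mul_g (x y : Ghat D) : (x * y).g = x.g * y.g := rfl
@[simp] theorem one_M : (1 : Ghat D).M = 1 := rfl
@[simp] theorem one_g : (1 : Ghat D).g = 1 := rfl
@[simp] theorem inv_g (x : Ghat D) : (x⁻¹).g = x.g⁻¹ := rfl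

/-- the projection to the Galois group -/
noncomputable def pr (D : Datum K Om A) : Ghat D →* (D.E ≃ₐ[K] D.E) where
  toFun x := x.g
  map_one' := rfl
  map_mul' _ _ := rfl

@[simp] theorem pr_apply (x : Ghat D) : pr D x = x.g := rfl

theorem pr_surjective (D : Datum K Om A) : Function.Surjective (pr D) := fun g => by
  obtain ⟨M, h1, h2⟩ := D.surj g
  exact ⟨⟨M, g, h1, h2⟩, rfl⟩

end Ghat

end Pool.Agent.Helper1.SR
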