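import Pool.Agent.Helper1.SR.Ker

set_option autoImplicit false

/-!
# SB-R-24: the obstruction, one prime at a time
Paper: let `s`, `t` be lifts of `σ`, `τ`.  Scalars `ζ` in `μ_d` satisfy `s ζ s⁻¹ = ζ^q`, and they
commute with `t`.  `s t s⁻¹` and `t^q` lie over the same element, so `s t s⁻¹ = c t^q` with `c` in
`μ_d` (`ghat_scalar`).  Let `l` be a prime dividing `d` and `s', t'` lifts of `σ, τ^N` with
`s' t' s'⁻¹ = t'^q`.  Then `s' = a s`, `t' = b t^N` with `a, b` in `μ_d`, and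
`s' t' s'⁻¹ = b^q s t^N s⁻¹` (`a` commutes with elements over powers of `τ`),
`t'^q = b^q t^{N q}`, so `s t^N s⁻¹ = t^{q N}`; on the other hand `s t^N s⁻¹ = (c t^q)^N = c^N t^{q N}`.
So `c^N = 1` with `l` not dividing `N`.  Hence the order of `c`, which divides `d`, has no prime
factor: `c = 1`.
-/

open scoped TensorProduct

namespace Pool.Agent.Helper1.SR

variable {K Om : Type} [Field K] [Field Om] [Algebra K Om] {A : Type} [Ring A] [Algebra K A]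

private theorem ob_conj {G : Type} [Group G] {Q : Type} [Group Q] (π : G →* Q) (q : ℕ) (σ : Q)
    (h2 : ∀ s k : G, π s = σ → π k = 1 → s * k * s⁻¹ = k ^ q)
    {s' b u : G} (hs' : π s' = σ) (hb : π b = 1) :
    s' * (b * u) * s'⁻¹ = b ^ q * (s' * u * s'⁻¹) := by
  rw [← h2 s' b hs' hb]
  group

private theorem ob_core {G : Type} [Group G] {Q : Type} [Group Q] (π : G →* Q) (d q : ℕ)
    (hd : d ≠ 0) (σ τ : Q) (hrel : σ * τ * σ⁻¹ = τ ^ q)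
    (h1 : ∀ k k' : G, π k = 1 → π k' = 1 → Commute k k')
    (h2 : ∀ s k : G, π s = σ → π k = 1 → s * k * s⁻¹ = k ^ q)
    (h3 : ∀ t k : G, π t = τ → π k = 1 → Commute k t)
    (h4 : ∀ k : G, π k = 1 → k ^ d = 1)
    (H : ∀ l : ℕ, l.Prime → l ∣ d → ∃ N : ℕ, ¬ l ∣ N ∧ ∃ s' t' : G, π s' = σ ∧ π t' = τ ^ N ∧
      s' * t' * s'⁻¹ = t' ^ q) (s t : G) (hs : π s = σ) (ht : π t = τ) :
    s * t * s⁻¹ = t ^ q := by
  obtain ⟨c, hc⟩ : ∃ c, c = s * t * s⁻¹ * (t ^ q)⁻¹ := ⟨_, rfl⟩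
  have hπc : π c = 1 := by
    rw [hc, map_mul, map_mul, map_mul, map_inv, map_inv, map_pow, hs, ht, hrel, mul_inv_cancel]
  have hst : s * t * s⁻¹ = c * t ^ q := by
    rw [hc]
    group
  have hct : Commute c t := h3 t c ht hπc
  have hone : orderOf c = 1 := by
    by_contra hne
    obtain ⟨l, hl, hlc⟩ := Nat.exists_prime_and_dvd hne
    have hld : l ∣ d := hlc.trans (orderOf_dvd_of_pow_eq_one (h4 c hπc))
    obtain ⟨N, hlN, s', t', hs', ht', hst'⟩ := H l hl hld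
    apply hlN
    refine hlc.trans (orderOf_dvd_of_pow_eq_one ?_)
    obtain ⟨a, ha⟩ : ∃ a, a = s' * s⁻¹ := ⟨_, rfl⟩
    obtain ⟨b, hb⟩ : ∃ b, b = t' * (t ^ N)⁻¹ := ⟨_, rfl⟩
    have hπa : π a = 1 := by
      rw [ha, map_mul, map_inv, hs, hs', mul_inv_cancel]
    have hπb : π b = 1 := by
      rw [hb, map_mul, map_inv, map_pow, ht, ht', mul_inv_cancel]
    have hs'' : s' = a * s := by rw [ha]; group
    have ht'' : t' = b * t ^ N := by rw [hb]; group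
    have hpow : s * t ^ N * s⁻¹ = c ^ N * (t ^ q) ^ N := by
      have e1 : s * t ^ N * s⁻¹ = (s * t * s⁻¹) ^ N := by
        rw [conj_pow]
      rw [e1, hst, (hct.pow_right q).mul_pow]
    have hac : Commute a (c ^ N * (t ^ q) ^ N) :=
      ((h1 a c hπa hπc).pow_right N).mul_right (((h3 t a ht hπa).pow_right q).pow_right N)
    have hab : Commute a (b ^ q) := (h1 a b hπa hπb).pow_right q
    have e2 : s' * t' * s'⁻¹ = b ^ q * (c ^ N * (t ^ q) ^ N) := by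
      have e3 : s' * t' * s'⁻¹ = a * (s * (b * t ^ N) * s⁻¹) * a⁻¹ := by
        rw [hs'', ht'']
        group
      rw [e3, ob_conj π q σ h2 hs hπb, hpow]
      rw [(hab.mul_right hac).eq, mul_inv_cancel_right]
    have e4 : t' ^ q = b ^ q * (t ^ N) ^ q := by
      rw [ht'', ((h3 t b ht hπb).pow_right N).mul_pow]
    rw [e2, e4] at hst'
    have e5 := mul_left_cancel hst'
    rw [← pow_mul, ← pow_mul, mul_comm N q] at e5
    exact mul_eq_right.1 e5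
  rw [orderOf_eq_one_iff] at hone
  rw [hst, hone, one_mul]

private theorem ob_ker [IsAzumaya K A] (D : Datum K Om A) (k : Ghat D) (hk : k.g = 1) :
    ∃ c : D.E, c ^ D.d = 1 ∧ k.M = c • (1 : Matrix (Fin D.d) (Fin D.d) D.E) := by
  obtain ⟨c, h1, h2⟩ := ghat_scalar D k 1 (by rw [hk, Ghat.one_g])
  exact ⟨c, h1, by rw [h2, Ghat.one_M]⟩

private theorem ob_pow (D : Datum K Om A) (k : Ghat D) (hk : k.g = 1) (c : D.E)
    (hc : k.M = c • (1 : Matrix (Fin D.d) (Fin D.d) D.E)) (n : ℕ) :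
    (k ^ n).g = 1 ∧ (k ^ n).M = c ^ n • (1 : Matrix (Fin D.d) (Fin D.d) D.E) := by
  induction n with
  | zero => exact ⟨by rw [pow_zero, Ghat.one_g], by rw [pow_zero, pow_zero, Ghat.one_M, one_smul]⟩
  | succ n ih =>
    refine ⟨by rw [pow_succ, Ghat.mul_g, ih.1, hk, one_mul], ?_⟩
    rw [pow_succ, Ghat.mul_M, ih.1, mapG_id, ih.2, hc, smul_mul_assoc, one_mul, smul_smul, pow_succ]

private theorem ob_h1 [IsAzumaya K A] (D : Datum K Om A) (k k' : Ghat D) (hk : k.g = 1)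
    (hk' : k'.g = 1) : Commute k k' := by
  obtain ⟨c, -, hc⟩ := ob_ker D k hk
  obtain ⟨c', -, hc'⟩ := ob_ker D k' hk'
  refine Ghat.ext' ?_ ?_
  · rw [Ghat.mul_M, Ghat.mul_M, hk, hk', mapG_id, mapG_id, hc, hc']
    simp only [smul_mul_assoc, one_mul, mul_smul_comm]
    rw [smul_comm]
  · rw [Ghat.mul_g, Ghat.mul_g, hk, hk']

private theorem ob_h2 [IsAzumaya K A] (D : Datum K Om A) (q : ℕ) (σ : D.E ≃ₐ[K] D.E)
    (hσ : ∀ ζ : D.E, ζ ^ D.d = 1 → σ ζ = ζ ^ q) (s k : Ghat D) (hs : s.g = σ) (hk : k.g = 1) :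
    s * k * s⁻¹ = k ^ q := by
  obtain ⟨c, hcd, hc⟩ := ob_ker D k hk
  obtain ⟨e1, e2⟩ := ob_pow D k hk c hc q
  rw [mul_inv_eq_iff_eq_mul]
  refine Ghat.ext' ?_ ?_
  · rw [Ghat.mul_M, Ghat.mul_M, e1, e2, mapG_id, hc, mapG_smul, mapG_one, hs, hσ c hcd,
      mul_smul_comm, smul_mul_assoc, mul_one, one_mul]
  · rw [Ghat.mul_g, Ghat.mul_g, e1, hk, mul_one, one_mul]

private theorem ob_h3 [IsAzumaya K A] (D : Datum K Om A) (τ : D.E ≃ₐ[K] D.E)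
    (hτ : ∀ ζ : D.E, ζ ^ D.d = 1 → τ ζ = ζ) (t k : Ghat D) (ht : t.g = τ) (hk : k.g = 1) :
    Commute k t := by
  obtain ⟨c, hcd, hc⟩ := ob_ker D k hk
  refine Ghat.ext' ?_ ?_
  · rw [Ghat.mul_M, Ghat.mul_M, hk, mapG_id, hc, mapG_smul, mapG_one, ht, hτ c hcd,
      mul_smul_comm, smul_mul_assoc, mul_one, one_mul]
  · rw [Ghat.mul_g, Ghat.mul_g, hk, mul_one, one_mul]

private theorem ob_h4 [IsAzumaya K A] (D : Datum K Om A) (k : Ghat D) (hk : k.g = 1) :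
    k ^ D.d = 1 := by
  obtain ⟨c, hcd, hc⟩ := ob_ker D k hk
  obtain ⟨e1, e2⟩ := ob_pow D k hk c hc D.d
  refine Ghat.ext' ?_ ?_
  · rw [e2, hcd, one_smul, Ghat.one_M]
  · rw [e1, Ghat.one_g]

theorem OB_of_parts [IsAzumaya K A] (D : Datum K Om A) (σ τ : D.E ≃ₐ[K] D.E) (q : ℕ)
    (hrel : σ * τ * σ⁻¹ = τ ^ q) (hσ : ∀ ζ : D.E, ζ ^ D.d = 1 → σ ζ = ζ ^ q)
    (hτ : ∀ ζ : D.E, ζ ^ D.d = 1 → τ ζ = ζ)
    (H : ∀ l : ℕ, l.Prime → l ∣ D.d → ∃ N : ℕ, ¬ l ∣ N ∧ OB D σ (τ ^ N) q) : OB D σ τ q := by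
  obtain ⟨s, hs⟩ := Ghat.pr_surjective D σ
  obtain ⟨t, ht⟩ := Ghat.pr_surjective D τ
  exact ⟨s, t, hs, ht, ob_core (Ghat.pr D) D.d q D.hd σ τ hrel (ob_h1 D) (ob_h2 D q σ hσ)
    (ob_h3 D τ hτ) (ob_h4 D) H s t hs ht⟩

/-- if one pair of lifts satisfies the relation then all do -/
theorem OB.all_lifts [IsAzumaya K A] (D : Datum K Om A) (σ τ : D.E ≃ₐ[K] D.E) (q : ℕ)
    (hσ : ∀ ζ : D.E, ζ ^ D.d = 1 → σ ζ = ζ ^ q) (hτ : ∀ ζ : D.E, ζ ^ D.d = 1 → τ ζ = ζ)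
    (h : OB D σ τ q) (s t : Ghat D) (hs : s.g = σ) (ht : t.g = τ) : s * t * s⁻¹ = t ^ q := by
  obtain ⟨s', t', hs', ht', hst⟩ := h
  obtain ⟨a, ha⟩ : ∃ a, a = s * s'⁻¹ := ⟨_, rfl⟩
  obtain ⟨b, hb⟩ : ∃ b, b = t * t'⁻¹ := ⟨_, rfl⟩
  have hπa : a.g = 1 := by
    rw [ha, Ghat.mul_g, Ghat.inv_g, hs, hs', mul_inv_cancel]
  have hπb : b.g = 1 := by
    rw [hb, Ghat.mul_g, Ghat.inv_g, ht, ht', mul_inv_cancel]
  have e1 : s = a * s' := by rw [ha]; group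
  have e2 : t = b * t' := by rw [hb]; group
  have e3 : s * t * s⁻¹ = a * (s' * (b * t') * s'⁻¹) * a⁻¹ := by
    rw [e1, e2]
    group
  have hab : Commute a (b ^ q) := (ob_h1 D a b hπa hπb).pow_right q
  have hat : Commute a (t' ^ q) := (ob_h3 D τ hτ t' a ht' hπa).pow_right q
  rw [e3, ob_conj (Ghat.pr D) q σ (ob_h2 D q σ hσ) hs' hπb, hst, (hab.mul_right hat).eq,
    mul_inv_cancel_right, e2, (ob_h3 D τ hτ t' b ht' hπb).mul_pow]

end Pool.Agent.Helper1.SR
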