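import Pool.Agent.Helper1.SR.Spec2
import Pool.Agent.Helper82.SR.RepEx

set_option autoImplicit false

/-!
# R7 for Azumaya algebras over an arbitrary ring `R` inside the valuation ring
-/

open scoped TensorProduct

namespace Pool.Agent.Helper1.SR

open Pool.Agent.Helper8.BR

/-- (R7) as `ob_of_valuation`, with `Ax` Azumaya over an arbitrary ring `R` inside `V` -/
theorem ob_of_valuation' {K Om A : Type} [Field K] [CharZero K] [Field Om] [Algebra K Om]
    [IsAlgClosed Om] [Algebra.IsAlgebraic K Om] [Ring A] [Algebra K A] [IsAzumaya K A]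
    (D : Datum K Om A) (σ τ : Om ≃ₐ[K] Om) (V : ValuationSubring Om)
    (hσ : ∀ x, σ x ∈ V ↔ x ∈ V) (hτ : ∀ x, τ x ∈ V ↔ x ∈ V)
    (hτ1 : ∀ x ∈ V, V.valuation (τ x - x) < 1) (hd : V.valuation (D.d : Om) = 1)
    (R Ax : Type) [CommRing R] [Algebra R K]
    (hR : ∀ r : R, algebraMap K Om (algebraMap R K r) ∈ V)
    [Ring Ax] [Algebra R Ax] [IsAzumaya R Ax] (hAx : BrEq K (K ⊗[R] Ax) A) :
    ∃ (E1 : IntermediateField K Om) (n : ℕ), FiniteDimensional K E1 ∧ n ≠ 0 ∧ ∀ q : ℕ,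
      (∀ x ∈ E1, (σ * τ * σ⁻¹) x = (τ ^ q) x) → (∀ ζ : Om, ζ ^ n = 1 → σ ζ = ζ ^ q) →
      OB D (AlgEquiv.restrictNormalHom D.E σ) (AlgEquiv.restrictNormalHom D.E τ) q := by
  let O : ValuationSubring K := V.comap (algebraMap K Om)
  let ι : R →+* O :=
    { toFun := fun r => ⟨algebraMap R K r, hR r⟩
      map_one' := Subtype.ext (map_one _)
      map_mul' := fun _ _ => Subtype.ext (map_mul _ _ _)
      map_zero' := Subtype.ext (map_zero _)
      map_add' := fun _ _ => Subtype.ext (map_add _ _ _) }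
  let _ : Algebra R O := ι.toAlgebra
  have : IsScalarTower R O K := IsScalarTower.of_algebraMap_eq (fun _ => rfl)
  have := az_baseChange' R O Ax
  exact Pool.Agent.Helper82.SR.ob_of_valuation D σ τ V hσ hτ hτ1 hd O (O ⊗[R] Ax)
    (fun r => r.2) ((brEq_tower R O K Ax).trans hAx)

end Pool.Agent.Helper1.SR
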