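import Pool.Agent.Helper1.SR.AzBase
import Pool.Agent.Helper82.SR.Specialise

set_option autoImplicit false

/-!
# Specialisation through a valuation ring, for Azumaya algebras over an arbitrary ring `R`
-/

open scoped TensorProduct

namespace Pool.Agent.Helper1.SR

open Pool.Agent.Helper8.BR
open Pool.Agent.Helper82.SR (vCancel free_of_local)

/-- (R6) specialisation: `O` is a valuation ring with fraction field `L` and a homomorphism to
`kv`; `Ax` is Azumaya over `R` (the coordinate ring of an affine open set), `B` over `F` -/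
theorem specialise' (R O F L kv Ax B : Type) [CommRing R] [CommRing O]
    [IsDomain O] [ValuationRing O] [Field F] [Field L] [Field kv]
    [Algebra R O] [Algebra F O] [Algebra O L] [IsFractionRing O L] [Algebra R L] [Algebra F L]
    [IsScalarTower R O L] [IsScalarTower F O L] [Algebra O kv] [Algebra R kv] [Algebra F kv]
    [IsScalarTower R O kv] [IsScalarTower F O kv]
    [Ring Ax] [Algebra R Ax] [IsAzumaya R Ax] [Ring B] [Algebra F B] [IsAzumaya F B]
    (h : BrEq L (L ⊗[R] Ax) (L ⊗[F] B)) : BrEq kv (kv ⊗[R] Ax) (kv ⊗[F] B) := by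
  have := az_baseChange' R O Ax
  have := free_of_local O (O ⊗[R] Ax)
  have := az_baseChange F O B
  have h1 : BrEq L (L ⊗[O] (O ⊗[R] Ax)) (L ⊗[O] (O ⊗[F] B)) :=
    ((BrEq.of_algEquiv (vCancel R O L L Ax)).trans h).trans
      (BrEq.of_algEquiv (vCancel F O L L B)).symm
  have h2 : BrEq O (O ⊗[R] Ax) (O ⊗[F] B) := Pool.Agent.Helper82.SR.BrEq.of_valuation O L _ _ h1
  have h3 : BrEq kv (kv ⊗[O] (O ⊗[R] Ax)) (kv ⊗[O] (O ⊗[F] B)) := BrEq.baseChange kv h2
  exact ((BrEq.of_algEquiv (vCancel R O kv kv Ax)).symm.trans h3).trans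
    (BrEq.of_algEquiv (vCancel F O kv kv B))

/-- transitivity of base change up to Brauer equivalence -/
theorem brEq_tower (R S T A : Type) [CommRing R] [CommRing S] [CommRing T]
    [Algebra R S] [Algebra R T] [Algebra S T] [IsScalarTower R S T] [Ring A] [Algebra R A] :
    BrEq T (T ⊗[S] (S ⊗[R] A)) (T ⊗[R] A) :=
  BrEq.of_algEquiv (vCancel R S T T A)

end Pool.Agent.Helper1.SR
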