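import Pool.Agent.Helper1.SR.FormE
import Pool.Agent.Helper1.SR.FormU

set_option autoImplicit false

/-!
# SB-R-23: a form along a homomorphism that lifts to `Ghat` is split (R5)
Paper: `(H g).M = c(g) • (lift (h g)).M` with `c(g)` in `E`, `c(g)^d = 1` (`ghat_scalar`), and `c(g)` is
the image of a root of unity `w(g)` of `W` (`exists_root`).  From `H (g g') = H g * H g'` and `zD_spec`:
`c(g) (h g)(c(g')) zD(h g, h g') = c(g g')` (`smul_inj`), where `(h g)(c(g'))` is the image of `g (w(g'))`
(`hh.cyc`).  So the cocycle `z` of the form is `z g g' = w(g g') / (w(g) g(w(g')))`, and `N` itself with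
`n = 1`, `P g = w(g)⁻¹` (a `1 × 1` matrix) has `TwI N W N z`: `w(g)⁻¹ g(w(g'))⁻¹ = z(g,g') w(g g')⁻¹`.
`w` is locally constant, because `H` and `h` are.  `twI_unique`.
-/

open scoped TensorProduct

namespace Pool.Agent.Helper1.SR

open Pool.Agent.Helper8.BR (BrEq Az)

variable {K Om : Type} [Field K] [Field Om] [Algebra K Om] {A : Type} [Ring A] [Algebra K A]

/-- (R5) if `h` lifts to `Ghat D` continuously, then the form is split -/
theorem form_split [CharZero K] [IsAzumaya K A] (D : Datum K Om A) (N W : Type) [Field N]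
    [Field W] [Algebra N W] [Algebra W Om] [IsGalois N W] [IsAlgClosed W]
    (h : (W ≃ₐ[N] W) →* (D.E ≃ₐ[K] D.E)) (hh : GoodHom D N W h)
    (H : (W ≃ₐ[N] W) →* Ghat D) (hH : LC N W H) (hpr : ∀ g, (H g).g = h g)
    (B : Type) [Ring B] [Algebra N B] [IsAzumaya N B] (hB : Form D N W h B) :
    BrEq N B N := by
  obtain ⟨z, hz, hz2⟩ := hB
  have hcO : CharZero Om := charZero_of_injective_algebraMap (algebraMap K Om).injective
  have hcW : CharZero W := (algebraMap W Om).charZero
  -- a scalar for every element of `Ghat D`, and a root of unity of `W` for it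
  have hc : ∀ x : Ghat D, ∃ c : D.E, c ^ D.d = 1 ∧ x.M = c • (lift D x.g).M := fun x =>
    ghat_scalar D x (lift D x.g) (by rw [lift_g])
  choose c hc1 hc2 using hc
  have hw : ∀ x : Ghat D, ∃ ζ : W, ζ ^ D.d = 1 ∧ algebraMap W Om ζ = ((c x : D.E) : Om) := by
    intro x
    refine exists_root W Om D.d D.hd ((c x : D.E) : Om) ?_
    have h1 := congrArg (fun t : D.E => (t : Om)) (hc1 x)
    simpa using h1
  choose w hw1 hw2 using hw
  have hw0 : ∀ x, w x ≠ 0 := by
    intro x h0
    have h1 := hw1 x
    rw [h0, zero_pow D.hd] at h1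
    exact zero_ne_one h1
  -- the relation between the scalars
  have hrel : ∀ g g' : W ≃ₐ[N] W,
      c (H g) * h g (c (H g')) * zD D (h g) (h g') = c (H (g * g')) := by
    intro g g'
    apply smul_inj D (lift D (h (g * g')))
    have e1 : (H (g * g')).M = c (H (g * g')) • (lift D (h (g * g'))).M := by
      rw [← hpr (g * g')]
      exact hc2 _
    have e2 : (H (g * g')).M = (H g).M * mapG (h g) (H g').M := by
      rw [map_mul H g g', Ghat.mul_M, hpr]
    have e3 : (H g).M = c (H g) • (lift D (h g)).M := by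
      rw [← hpr g]
      exact hc2 _
    have e4 : (H g').M = c (H g') • (lift D (h g')).M := by
      rw [← hpr g']
      exact hc2 _
    have e5 := zD_spec D (h g) (h g')
    rw [Ghat.mul_M, lift_g] at e5
    rw [← e1, e2, e3, e4, mapG_smul, smul_mul_smul_comm, e5, smul_smul, map_mul h g g']
  have hrelW : ∀ g g' : W ≃ₐ[N] W, w (H g) * g (w (H g')) * z g g' = w (H (g * g')) := by
    intro g g'
    apply (algebraMap W Om).injective
    have h1 := congrArg (fun t : D.E => (t : Om)) (hrel g g')
    have h2 := hh.cyc g (w (H g')) (c (H g')) (hw1 _) (hw2 _).symm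
    rw [map_mul, map_mul, hw2, hw2, hz2, ← h2]
    exact h1
  have hN : TwI N W N z := by
    refine ⟨1, Algebra.ofId N _, fun g => (w (H g))⁻¹ • (1 : Matrix (Fin 1) (Fin 1) W),
      one_ne_zero, by simp, fun g => ?_, fun g b => ?_, fun g g' => ?_, ?_⟩
    · rw [Matrix.isUnit_iff_isUnit_det, Matrix.det_smul, Matrix.det_one, mul_one, isUnit_iff_ne_zero]
      exact pow_ne_zero _ (inv_ne_zero (hw0 _))
    · have h1 : mapG g (Algebra.ofId N (Matrix (Fin 1) (Fin 1) W) b) =
          Algebra.ofId N (Matrix (Fin 1) (Fin 1) W) b := by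
        rw [Algebra.ofId_apply, Matrix.algebraMap_eq_diagonal]
        ext i j
        fin_cases i
        fin_cases j
        simp
      rw [h1, smul_mul_assoc, one_mul, mul_smul_comm, mul_one]
    · rw [mapG_smul, mapG_one, smul_mul_smul_comm, mul_one, smul_smul]
      congr 1
      have h1 := hrelW g g'
      have h2 : g (w (H g')) ≠ 0 := (map_ne_zero g).mpr (hw0 _)
      rw [← h1, map_inv₀]
      have h3 : z g g' ≠ 0 := by
        intro h0
        rw [h0, mul_zero] at h1
        exact hw0 _ h1.symm
      have h4 := hw0 (H g)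
      field_simp
    · obtain ⟨N', hN', hlc⟩ := hH
      refine ⟨N', hN', fun g g' hgg => ?_⟩
      change (w (H g))⁻¹ • (1 : Matrix (Fin 1) (Fin 1) W) = (w (H g'))⁻¹ • (1 : Matrix _ _ W)
      rw [hlc g g' hgg]
  exact twI_unique N W z B N hz hN

end Pool.Agent.Helper1.SR
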