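import Pool.Agent.Helper1.SR.DatumEx
import Pool.Agent.Helper1.SR.FinG
import Pool.Agent.Helper1.SR.FormE
import Pool.Agent.Helper1.SR.FormU
import Pool.Agent.Helper1.SR.Compare
import Pool.Agent.Helper1.SR.SplitF
import Pool.Agent.Helper1.SR.OBParts
import Pool.Agent.Helper82.SR.Specialise
import Pool.Agent.Helper82.SR.RepEx
import Pool.Agent.Helper1.SR.Spec2
import Pool.Agent.Helper1.SR.Ob2

set_option autoImplicit false

/-!
# PROJECT SB (MP_ad201b_nt), block R: INTERFACE
R0 `exists_datum` (DatumEx), R1 `form_exists` (FormE), R2 `form_base` and R3 `form_unique` (FormU),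
R4 `form_compare` (Compare), R5 `form_split` (SplitF), `ghat_finite` and `ghat_prime` (FinG),
R6 `specialise` and R7 `ob_of_valuation` below.
-/

open scoped TensorProduct

namespace Pool.Agent.Helper1.SR

open Pool.Agent.Helper8.BR (BrEq Az)

/-- (R6) specialisation: `O` is a valuation ring with fraction field `L` and a homomorphism to
`kv`; `Ax` is Azumaya over `R` (the local ring of a point of `X`), `B` over `F` -/
theorem specialise (R O F L kv Ax B : Type) [CommRing R] [IsLocalRing R] [CommRing O]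
    [IsDomain O] [ValuationRing O] [Field F] [Field L] [Field kv]
    [Algebra R O] [Algebra F O] [Algebra O L] [IsFractionRing O L] [Algebra R L] [Algebra F L]
    [IsScalarTower R O L] [IsScalarTower F O L] [Algebra O kv] [Algebra R kv] [Algebra F kv]
    [IsScalarTower R O kv] [IsScalarTower F O kv]
    [Ring Ax] [Algebra R Ax] [IsAzumaya R Ax] [Ring B] [Algebra F B] [IsAzumaya F B]
    (h : BrEq L (L ⊗[R] Ax) (L ⊗[F] B)) : BrEq kv (kv ⊗[R] Ax) (kv ⊗[F] B) :=
  Pool.Agent.Helper82.SR.specialise R O F L kv Ax B h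

/-- (R7) the obstruction of a pair `(σ, τ)` vanishes if `σ, τ` preserve a valuation ring `V` of
`Om` such that `τ` acts trivially on the residue field, `d` is invertible in `V` and the class of
`A` comes from an Azumaya algebra over a local ring `R` contained in `V` -/
theorem ob_of_valuation {K Om A : Type} [Field K] [CharZero K] [Field Om] [Algebra K Om]
    [IsAlgClosed Om] [Algebra.IsAlgebraic K Om] [Ring A] [Algebra K A] [IsAzumaya K A]
    (D : Datum K Om A) (σ τ : Om ≃ₐ[K] Om) (V : ValuationSubring Om)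
    (hσ : ∀ x, σ x ∈ V ↔ x ∈ V) (hτ : ∀ x, τ x ∈ V ↔ x ∈ V)
    (hτ1 : ∀ x ∈ V, V.valuation (τ x - x) < 1) (hd : V.valuation (D.d : Om) = 1)
    (R Ax : Type) [CommRing R] [IsLocalRing R] [Algebra R K]
    (hR : ∀ r : R, algebraMap K Om (algebraMap R K r) ∈ V)
    [Ring Ax] [Algebra R Ax] [IsAzumaya R Ax] (hAx : BrEq K (K ⊗[R] Ax) A) :
    ∃ (E1 : IntermediateField K Om) (n : ℕ), FiniteDimensional K E1 ∧ n ≠ 0 ∧ ∀ q : ℕ,
      (∀ x ∈ E1, (σ * τ * σ⁻¹) x = (τ ^ q) x) → (∀ ζ : Om, ζ ^ n = 1 → σ ζ = ζ ^ q) →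
      OB D (AlgEquiv.restrictNormalHom D.E σ) (AlgEquiv.restrictNormalHom D.E τ) q :=
  Pool.Agent.Helper82.SR.ob_of_valuation D σ τ V hσ hτ hτ1 hd R Ax hR hAx

end Pool.Agent.Helper1.SR
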