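import Pool.Agent.Helper1.SR.Grp

set_option autoImplicit false

/-!
# Invariants of a semilinear action on rectangular matrices (definitions, proved)
-/

open scoped TensorProduct

namespace Pool.Agent.Helper1.SR

/-- apply a Galois element to the entries of a rectangular matrix -/
abbrev mapR {N N' : Type} [Field N] [Field N'] [Algebra N N'] {n m : ℕ}
    (g : N' ≃ₐ[N] N') (T : Matrix (Fin n) (Fin m) N') : Matrix (Fin n) (Fin m) N' :=
  T.map g

/-- `P` is a family of invertible matrices with `P g * g(P h) = z g h • P (g h)` -/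
structure Fam (N N' : Type) [Field N] [Field N'] [Algebra N N'] (n : ℕ)
    (z : (N' ≃ₐ[N] N') → (N' ≃ₐ[N] N') → N')
    (P : (N' ≃ₐ[N] N') → Matrix (Fin n) (Fin n) N') : Prop where
  unit : ∀ g, IsUnit (P g)
  mul : ∀ g h, P g * mapG g (P h) = z g h • P (g * h)

section

variable {N N' : Type} [Field N] [Field N'] [Algebra N N'] {n m k : ℕ}

theorem mapR_mul (g : N' ≃ₐ[N] N') (T : Matrix (Fin n) (Fin m) N')
    (S : Matrix (Fin m) (Fin k) N') : mapR g (T * S) = mapR g T * mapR g S :=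
  Matrix.map_mul (f := (g : N' →+* N'))

theorem mapR_add (g : N' ≃ₐ[N] N') (T S : Matrix (Fin n) (Fin m) N') :
    mapR g (T + S) = mapR g T + mapR g S := by
  ext i j
  simp [mapR]

theorem mapR_smul (g : N' ≃ₐ[N] N') (c : N') (T : Matrix (Fin n) (Fin m) N') :
    mapR g (c • T) = g c • mapR g T := by
  ext i j
  simp [mapR]

theorem mapR_smul' (g : N' ≃ₐ[N] N') (c : N) (T : Matrix (Fin n) (Fin m) N') :
    mapR g (c • T) = c • mapR g T := by
  ext i j
  simp [mapR]

theorem mapR_mapR (g h : N' ≃ₐ[N] N') (T : Matrix (Fin n) (Fin m) N') :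
    mapR g (mapR h T) = mapR (g * h) T := by
  ext i j
  simp [mapR]

theorem mapR_id (T : Matrix (Fin n) (Fin m) N') : mapR (1 : N' ≃ₐ[N] N') T = T := by
  ext i j
  simp [mapR]

theorem mapR_eq_mapG (g : N' ≃ₐ[N] N') (T : Matrix (Fin n) (Fin n) N') :
    mapR g T = mapG g T := rfl

/-- the invariants: `P g * g(T) = T * Q g` for all `g` -/
def Inv (P : (N' ≃ₐ[N] N') → Matrix (Fin n) (Fin n) N')
    (Q : (N' ≃ₐ[N] N') → Matrix (Fin m) (Fin m) N') :
    Submodule N (Matrix (Fin n) (Fin m) N') where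
  carrier := {T | ∀ g, P g * mapR g T = T * Q g}
  add_mem' := by
    intro T S hT hS g
    rw [mapR_add, Matrix.mul_add, Matrix.add_mul, hT g, hS g]
  zero_mem' := by
    intro g
    have : mapR g (0 : Matrix (Fin n) (Fin m) N') = 0 := by
      ext i j
      simp [mapR]
    rw [this, Matrix.mul_zero, Matrix.zero_mul]
  smul_mem' := by
    intro c T hT g
    rw [mapR_smul', Matrix.mul_smul, Matrix.smul_mul, hT g]

theorem mem_Inv {P : (N' ≃ₐ[N] N') → Matrix (Fin n) (Fin n) N'}
    {Q : (N' ≃ₐ[N] N') → Matrix (Fin m) (Fin m) N'} {T : Matrix (Fin n) (Fin m) N'} :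
    T ∈ Inv P Q ↔ ∀ g, P g * mapR g T = T * Q g := Iff.rfl

end

end Pool.Agent.Helper1.SR
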