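import Pool.Agent.Helper1.SR.InvDef

set_option autoImplicit false

/-!
# SB-R-09: invariants that are independent over `N` are independent over `N'`
Paper: let `T_i` be invariants independent over `N` and `Σ c_i T_i = 0` with `c_i` in `N'`.
Multiply by `μ` in `N'`, apply `T ↦ P_g g(T) Q_g⁻¹` (which fixes the `T_i`) and sum over `g`:
`Σ_i Tr(μ c_i) T_i = 0`, where `Tr(x) = Σ_g g(x)` is (the image of) an element of `N` (Galois), so
`Tr(μ c_i) = 0` for all `μ`, so `c_i = 0` by linear independence of characters.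
-/

open scoped TensorProduct

namespace Pool.Agent.Helper1.SR

theorem inv_indep {N N' : Type} [Field N] [Field N'] [Algebra N N'] [FiniteDimensional N N']
    [IsGalois N N'] {n m : ℕ}
    {P : (N' ≃ₐ[N] N') → Matrix (Fin n) (Fin n) N'}
    {Q : (N' ≃ₐ[N] N') → Matrix (Fin m) (Fin m) N'} (hP : ∀ g, IsUnit (P g))
    (hQ : ∀ g, IsUnit (Q g)) {ι : Type} (T : ι → Inv P Q) (hT : LinearIndependent N T) :
    LinearIndependent N' (fun i => (T i : Matrix (Fin n) (Fin m) N')) := by
  classical
  have hT' : LinearIndependent N (fun i => (T i : Matrix (Fin n) (Fin m) N')) :=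
    hT.map' (Inv P Q).subtype (Submodule.ker_subtype _)
  rw [linearIndependent_iff'] at hT' ⊢
  intro s c hc i hi
  -- the semilinear action
  have step : ∀ (μ : N') (g : N' ≃ₐ[N] N'),
      ∑ i ∈ s, g (μ * c i) • (T i : Matrix (Fin n) (Fin m) N') = 0 := by
    intro μ g
    have h0 : ∑ i ∈ s, (μ * c i) • (T i : Matrix (Fin n) (Fin m) N') = 0 := by
      rw [← smul_zero μ, ← hc, Finset.smul_sum]
      exact Finset.sum_congr rfl fun i _ => mul_smul _ _ _
    have hmap : mapR g (∑ i ∈ s, (μ * c i) • (T i : Matrix (Fin n) (Fin m) N')) =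
        ∑ i ∈ s, g (μ * c i) • mapR g (T i : Matrix (Fin n) (Fin m) N') := by
      clear h0 hc hi
      induction s using Finset.induction_on with
      | empty =>
        ext a b
        simp [mapR]
      | insert a s ha ih =>
        rw [Finset.sum_insert ha, Finset.sum_insert ha, mapR_add, mapR_smul, ih]
    have h1 : P g * mapR g (∑ i ∈ s, (μ * c i) • (T i : Matrix (Fin n) (Fin m) N')) =
        (∑ i ∈ s, g (μ * c i) • (T i : Matrix (Fin n) (Fin m) N')) * Q g := by
      rw [hmap, Matrix.mul_sum, Matrix.sum_mul]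
      refine Finset.sum_congr rfl fun i _ => ?_
      rw [Matrix.mul_smul, Matrix.smul_mul, (T i).2 g]
    rw [h0] at h1
    have h2 : mapR g (0 : Matrix (Fin n) (Fin m) N') = 0 := by
      ext a b
      simp [mapR]
    rw [h2, Matrix.mul_zero] at h1
    obtain ⟨u, hu⟩ := hQ g
    have h3 : (∑ i ∈ s, g (μ * c i) • (T i : Matrix (Fin n) (Fin m) N')) * Q g * ((u⁻¹ : (Matrix (Fin m) (Fin m) N')ˣ) : Matrix (Fin m) (Fin m) N') = 0 := by
      rw [← h1, Matrix.zero_mul]
    rw [Matrix.mul_assoc, ← hu, Units.mul_inv, Matrix.mul_one] at h3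
    exact h3
  have htr : ∀ μ : N', Algebra.trace N N' (μ * c i) = 0 := by
    intro μ
    refine hT' s (fun i => Algebra.trace N N' (μ * c i)) ?_ i hi
    have h4 : ∀ i, Algebra.trace N N' (μ * c i) • (T i : Matrix (Fin n) (Fin m) N') =
        ∑ g : N' ≃ₐ[N] N', g (μ * c i) • (T i : Matrix (Fin n) (Fin m) N') := by
      intro i
      rw [← Finset.sum_smul, ← trace_eq_sum_automorphisms, algebraMap_smul]
    rw [Finset.sum_congr rfl fun i _ => h4 i, Finset.sum_comm]
    exact Finset.sum_eq_zero fun g _ => step μ g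
  have hnd := traceForm_nondegenerate N N'
  refine hnd.1 (c i) fun μ => ?_
  rw [Algebra.traceForm_apply, mul_comm]
  exact htr μ

end Pool.Agent.Helper1.SR
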