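import Pool.Agent.Helper1.SR.InvSpan
import Pool.Agent.Helper1.SR.InvIndep

set_option autoImplicit false

/-!
# SB-R-10: dimension of the invariants
Paper: a basis of `Inv P Q` over `N` spans `M_{n×m}(N')` over `N'` (`inv_span`) and is independent
over `N'` (`inv_indep`), so it has `n * m` elements.
-/

open scoped TensorProduct

namespace Pool.Agent.Helper1.SR

theorem inv_finite {N N' : Type} [Field N] [Field N'] [Algebra N N'] [FiniteDimensional N N']
    [IsGalois N N'] {n m : ℕ} {z : (N' ≃ₐ[N] N') → (N' ≃ₐ[N] N') → N'}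
    {P : (N' ≃ₐ[N] N') → Matrix (Fin n) (Fin n) N'}
    {Q : (N' ≃ₐ[N] N') → Matrix (Fin m) (Fin m) N'} (hP : Fam N N' n z P)
    (hQ : Fam N N' m z Q) : FiniteDimensional N (Inv P Q) := by
  have : FiniteDimensional N (Matrix (Fin n) (Fin m) N') := inferInstance
  exact FiniteDimensional.finiteDimensional_submodule _

theorem inv_finrank {N N' : Type} [Field N] [Field N'] [Algebra N N'] [FiniteDimensional N N']
    [IsGalois N N'] {n m : ℕ} {z : (N' ≃ₐ[N] N') → (N' ≃ₐ[N] N') → N'}
    {P : (N' ≃ₐ[N] N') → Matrix (Fin n) (Fin n) N'}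
    {Q : (N' ≃ₐ[N] N') → Matrix (Fin m) (Fin m) N'} (hP : Fam N N' n z P)
    (hQ : Fam N N' m z Q) : Module.finrank N (Inv P Q) = n * m := by
  have := inv_finite hP hQ
  let b := Module.finBasis N (Inv P Q)
  have hli := inv_indep hP.unit hQ.unit (fun i => b i) b.linearIndependent
  have hsp : ⊤ ≤ Submodule.span N'
      (Set.range (fun i => ((b i : Inv P Q) : Matrix (Fin n) (Fin m) N'))) := by
    rw [← inv_span hP hQ, Submodule.span_le]
    intro T hT
    have h1 : (⟨T, hT⟩ : Inv P Q) = ∑ i, b.repr ⟨T, hT⟩ i • b i := (b.sum_repr _).symm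
    have h2 : T = ∑ i, b.repr ⟨T, hT⟩ i • ((b i : Inv P Q) : Matrix (Fin n) (Fin m) N') := by
      have h3 := congrArg (Inv P Q).subtype h1
      simpa only [map_sum, map_smul, Submodule.subtype_apply] using h3
    rw [h2]
    refine Submodule.sum_mem _ fun i _ => ?_
    have h4 : b.repr ⟨T, hT⟩ i • ((b i : Inv P Q) : Matrix (Fin n) (Fin m) N') =
        (algebraMap N N' (b.repr ⟨T, hT⟩ i)) • ((b i : Inv P Q) : Matrix (Fin n) (Fin m) N') := by
      rw [algebraMap_smul]
    rw [h4]
    exact Submodule.smul_mem _ _ (Submodule.subset_span ⟨i, rfl⟩)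
  have h5 := Module.finrank_eq_card_basis (Module.Basis.mk hli hsp)
  rw [Module.finrank_matrix, Module.finrank_self, mul_one, Fintype.card_fin, Fintype.card_fin,
    Fintype.card_fin] at h5
  exact h5.symm

end Pool.Agent.Helper1.SR
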