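import Pool.Agent.Helper1.SR.InvDef

set_option autoImplicit false

/-!
# SB-R-08: the invariants span
Paper: the operators `T ↦ P_g g(T) Q_g⁻¹` are an action of the finite group `Gal(N'/N)` (the
scalars `z` cancel).  For `c` in `N'` and a matrix `T₀` the sum
`S(c) = Σ_g P_g g(c T₀) Q_g⁻¹ = Σ_g g(c) P_g g(T₀) Q_g⁻¹` is invariant.  If the `N'`-span of the
invariants were not everything, there would be an `N'`-linear functional `f ≠ 0` killing all `S(c)`:
`Σ_g g(c) f(P_g g(T₀) Q_g⁻¹) = 0` for all `c`, so by linear independence of the characters `g`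
(`linearIndependent_monoidHom`) all coefficients vanish; `g = 1` gives `f(P_1 T₀ Q_1⁻¹) = 0` for
every `T₀`, so `f = 0`.
-/

open scoped TensorProduct

namespace Pool.Agent.Helper1.SR

private theorem z_ne {N N' : Type} [Field N] [Field N'] [Algebra N N'] {m : ℕ} (hm : 0 < m)
    {z : (N' ≃ₐ[N] N') → (N' ≃ₐ[N] N') → N'}
    {Q : (N' ≃ₐ[N] N') → Matrix (Fin m) (Fin m) N'} (hQ : Fam N N' m z Q) (h g : N' ≃ₐ[N] N') :
    z h g ≠ 0 := by
  intro hz
  have h1 := hQ.mul h g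
  rw [hz, zero_smul] at h1
  haveI : Nonempty (Fin m) := ⟨⟨0, hm⟩⟩
  have h2 : IsUnit (mapG h (Q g)) := by
    have h3 := (hQ.unit g).map ((h : N' →+* N').mapMatrix (m := Fin m))
    exact h3
  have h4 : IsUnit (Q h * mapG h (Q g)) := (hQ.unit h).mul h2
  rw [h1] at h4
  exact not_isUnit_zero h4

private theorem mapR_inv {N N' : Type} [Field N] [Field N'] [Algebra N N'] {m : ℕ} (hm : 0 < m)
    {z : (N' ≃ₐ[N] N') → (N' ≃ₐ[N] N') → N'}
    {Q : (N' ≃ₐ[N] N') → Matrix (Fin m) (Fin m) N'} (hQ : Fam N N' m z Q) (h g : N' ≃ₐ[N] N') :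
    mapR h (Q g)⁻¹ = (z h g)⁻¹ • ((Q (h * g))⁻¹ * Q h) := by
  have hd : ∀ g, IsUnit (Q g).det := fun g => (Matrix.isUnit_iff_isUnit_det _).mp (hQ.unit g)
  have e1 : mapR h (Q g) * mapR h (Q g)⁻¹ = 1 := by
    rw [← mapR_mul, Matrix.mul_nonsing_inv _ (hd g)]
    exact Matrix.map_one _ (map_zero h) (map_one h)
  have e2 : (z h g • Q (h * g)) * mapR h (Q g)⁻¹ = Q h := by
    rw [← hQ.mul h g, ← mapR_eq_mapG, Matrix.mul_assoc, e1, Matrix.mul_one]
  have hz := z_ne hm hQ h g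
  rw [← e2, Matrix.smul_mul, Matrix.mul_smul, smul_smul, inv_mul_cancel₀ hz, one_smul,
    ← Matrix.mul_assoc, Matrix.nonsing_inv_mul _ (hd _), Matrix.one_mul]

/-- the averaged matrix is invariant -/
theorem avg_mem_Inv {N N' : Type} [Field N] [Field N'] [Algebra N N'] [FiniteDimensional N N']
    {n m : ℕ} {z : (N' ≃ₐ[N] N') → (N' ≃ₐ[N] N') → N'}
    {P : (N' ≃ₐ[N] N') → Matrix (Fin n) (Fin n) N'}
    {Q : (N' ≃ₐ[N] N') → Matrix (Fin m) (Fin m) N'} (hP : Fam N N' n z P) (hQ : Fam N N' m z Q)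
    (T : Matrix (Fin n) (Fin m) N') : (∑ g, P g * mapR g T * (Q g)⁻¹) ∈ Inv P Q := by
  rw [mem_Inv]
  intro h
  rcases Nat.eq_zero_or_pos m with hm | hm
  · subst hm
    ext i j
    exact j.elim0
  have e0 : mapR h (∑ g, P g * mapR g T * (Q g)⁻¹) = ∑ g, mapR h (P g * mapR g T * (Q g)⁻¹) := by
    ext i j
    simp only [mapR, Matrix.map_apply, Matrix.sum_apply, map_sum]
  rw [e0, Matrix.mul_sum, Matrix.sum_mul,
    ← Equiv.sum_comp (Equiv.mulLeft h) (fun g => P g * mapR g T * (Q g)⁻¹ * Q h)]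
  refine Finset.sum_congr rfl fun g _ => ?_
  have hz := z_ne hm hQ h g
  rw [Equiv.coe_mulLeft, mapR_mul, mapR_mul, mapR_mapR, mapR_inv hm hQ h g, mapR_eq_mapG h (P g),
    ← Matrix.mul_assoc, ← Matrix.mul_assoc, hP.mul h g, Matrix.smul_mul, Matrix.smul_mul,
    Matrix.mul_smul, smul_smul, mul_inv_cancel₀ hz, one_smul, ← Matrix.mul_assoc]

theorem inv_span {N N' : Type} [Field N] [Field N'] [Algebra N N'] [FiniteDimensional N N']
    {n m : ℕ} {z : (N' ≃ₐ[N] N') → (N' ≃ₐ[N] N') → N'}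
    {P : (N' ≃ₐ[N] N') → Matrix (Fin n) (Fin n) N'}
    {Q : (N' ≃ₐ[N] N') → Matrix (Fin m) (Fin m) N'} (hP : Fam N N' n z P)
    (hQ : Fam N N' m z Q) :
    Submodule.span N' ((Inv P Q : Submodule N _) : Set (Matrix (Fin n) (Fin m) N')) = ⊤ := by
  by_contra hne
  obtain ⟨f, hf0, hf⟩ := Submodule.exists_le_ker_of_lt_top _ (lt_top_iff_ne_top.mpr hne)
  apply hf0
  have hinj : Function.Injective (fun g : N' ≃ₐ[N] N' => (g : N' →* N')) := by
    intro g g' hg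
    ext x
    exact DFunLike.congr_fun hg x
  have hli := (linearIndependent_monoidHom N' N').comp _ hinj
  rw [Fintype.linearIndependent_iff] at hli
  have key : ∀ T₀ : Matrix (Fin n) (Fin m) N', f (P 1 * mapR (1 : N' ≃ₐ[N] N') T₀ * (Q 1)⁻¹) = 0 := by
    intro T₀
    refine hli (fun g => f (P g * mapR g T₀ * (Q g)⁻¹)) ?_ 1
    funext c
    have h1 : f (∑ g, P g * mapR g (c • T₀) * (Q g)⁻¹) = 0 :=
      LinearMap.mem_ker.mp (hf (Submodule.subset_span (avg_mem_Inv hP hQ (c • T₀))))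
    rw [map_sum] at h1
    simp only [Finset.sum_apply, Pi.smul_apply, smul_eq_mul, Pi.zero_apply]
    refine Eq.trans (Finset.sum_congr rfl fun g _ => ?_) h1
    rw [mapR_smul, Matrix.mul_smul, Matrix.smul_mul, map_smul, smul_eq_mul, mul_comm]
    rfl
  have hdP : IsUnit (P 1).det := (Matrix.isUnit_iff_isUnit_det _).mp (hP.unit 1)
  have hdQ : IsUnit (Q 1).det := (Matrix.isUnit_iff_isUnit_det _).mp (hQ.unit 1)
  ext1 T
  have h2 := key ((P 1)⁻¹ * T * Q 1)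
  rw [mapR_id, ← Matrix.mul_assoc, ← Matrix.mul_assoc, Matrix.mul_nonsing_inv _ hdP, Matrix.one_mul,
    Matrix.mul_assoc, Matrix.mul_nonsing_inv _ hdQ, Matrix.mul_one] at h2
  rw [h2, LinearMap.zero_apply]

end Pool.Agent.Helper1.SR
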