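import Pool.Agent.Helper1.SR.FinGal

set_option autoImplicit false

/-!
# SB-R-16: from the finite to the infinite level
Paper: compose `φ` and `P` with the inclusion `N' → W` and the restriction `Gal(W/N) → Gal(N'/N)`.
-/

open scoped TensorProduct

namespace Pool.Agent.Helper1.SR

theorem tw_to_twI (N W : Type) [Field N] [Field W] [Algebra N W] (B : Type)
    [Ring B] [Algebra N B] (N' : IntermediateField N W) [FiniteDimensional N N'] [Normal N N']
    (z' : (N' ≃ₐ[N] N') → (N' ≃ₐ[N] N') → N') (hB : Tw N N' B z') :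
    TwI N W B (fun g h => ((z' (AlgEquiv.restrictNormalHom N' g)
      (AlgEquiv.restrictNormalHom N' h) : N') : W)) := by
  obtain ⟨n, φ, P, hn, hdim, hP, hcomm, hmul⟩ := hB
  have key : ∀ (g : W ≃ₐ[N] W) (M : Matrix (Fin n) (Fin n) N'),
      mapG g (N'.val.mapMatrix M) =
        N'.val.mapMatrix (mapG (AlgEquiv.restrictNormalHom N' g) M) := by
    intro g M
    ext i j
    simp only [mapG, AlgHom.mapMatrix_apply, Matrix.map_apply, IntermediateField.coe_val]
    exact (restrict_apply N W N' g (M i j)).symm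
  refine ⟨n, N'.val.mapMatrix.comp φ,
    fun g => N'.val.mapMatrix (P (AlgEquiv.restrictNormalHom N' g)), hn, hdim, ?_, ?_, ?_, ?_⟩
  · intro g
    exact (hP _).map N'.val.mapMatrix
  · intro g b
    rw [AlgHom.comp_apply, key, ← map_mul, hcomm, map_mul]
  · intro g h
    rw [key, ← map_mul, hmul]
    ext i j
    simp [AlgHom.mapMatrix_apply, Matrix.map_apply]
  · refine ⟨N', inferInstance, fun g g' hg => ?_⟩
    simp only
    rw [(restrict_eq_iff N W N' g g').mpr hg]

end Pool.Agent.Helper1.SR
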