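import Pool.Agent.Helper1.SR.Fix

set_option autoImplicit false

/-!
# SB-R-14: existence of the form of a cocycle, finite level
Paper: `n = |Gal(N'/N)|`, matrices indexed by the group (through an enumeration
`Fin n ≃ Gal(N'/N)`): `P_g` has entry `z(g,h)` at `(g h, h)` and `0` elsewhere, i.e.
`P_g e_h = z(g,h) e_{gh}`.  `P_g g(P_h) e_x = g(z(h,x)) z(g,hx) e_{ghx}` and
`z(g,h) P_{gh} e_x = z(g,h) z(gh,x) e_{ghx}`: equal by the cocycle identity.  `P_g` is invertible:
it is a monomial matrix with nonzero entries (or: `P_g g(P_{g⁻¹}) = z(g,g⁻¹) P_1`, and `P_1` is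
diagonal with entries `z(1,h) ≠ 0`).  Then `exists_fixed`.
-/

open scoped TensorProduct

namespace Pool.Agent.Helper1.SR

open Pool.Agent.Helper8.BR (BrEq Az)

theorem exists_fam (N N' : Type) [Field N] [Field N'] [Algebra N N'] [FiniteDimensional N N']
    (z : (N' ≃ₐ[N] N') → (N' ≃ₐ[N] N') → N') (hz : Cocycle N N' z) :
    ∃ (n : ℕ) (P : (N' ≃ₐ[N] N') → Matrix (Fin n) (Fin n) N'), n ≠ 0 ∧ Fam N N' n z P := by
  classical
  have hfin : Fintype (N' ≃ₐ[N] N') := Fintype.ofFinite _
  let e : Fin (Fintype.card (N' ≃ₐ[N] N')) ≃ (N' ≃ₐ[N] N') := (Fintype.equivFin _).symm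
  refine ⟨Fintype.card (N' ≃ₐ[N] N'),
    fun g => Matrix.of fun i j => if e i = g * e j then z g (e j) else 0,
    Fintype.card_ne_zero, ?_, ?_⟩
  · intro g
    refine IsUnit.of_mul_eq_one_right
      (Matrix.of fun i j => if e j = g * e i then (z g (e i))⁻¹ else 0) ?_
    ext i j
    rw [Matrix.mul_apply, Finset.sum_eq_single (e.symm (g * e i))]
    · rw [Matrix.of_apply, Matrix.of_apply, e.apply_symm_apply, if_pos rfl]
      by_cases hij : i = j
      · subst hij
        rw [if_pos rfl, inv_mul_cancel₀ (hz.1 _ _), Matrix.one_apply_eq]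
      · rw [if_neg, mul_zero, Matrix.one_apply_ne hij]
        intro h
        exact hij (e.injective (mul_left_cancel h))
    · intro k _ hk
      rw [Matrix.of_apply, if_neg, zero_mul]
      intro h
      apply hk
      rw [← h, e.symm_apply_apply]
    · intro h
      exact absurd (Finset.mem_univ _) h
  · intro g h
    ext i j
    rw [Matrix.mul_apply, Finset.sum_eq_single (e.symm (h * e j))]
    · change (if e i = g * e (e.symm (h * e j)) then z g (e (e.symm (h * e j))) else 0) *
        g (if e (e.symm (h * e j)) = h * e j then z h (e j) else 0) =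
        z g h * (if e i = g * h * e j then z (g * h) (e j) else 0)
      rw [e.apply_symm_apply, if_pos rfl, ← mul_assoc g h (e j)]
      by_cases hij : e i = g * h * e j
      · rw [if_pos hij, if_pos hij, hz.2 g h (e j), mul_comm]
      · rw [if_neg hij, if_neg hij, zero_mul, mul_zero]
    · intro k _ hk
      change _ * g (if e k = h * e j then z h (e j) else 0) = 0
      rw [if_neg, map_zero, mul_zero]
      intro h'
      apply hk
      rw [← h', e.symm_apply_apply]
    · intro h
      exact absurd (Finset.mem_univ _) h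

theorem tw_exists (N N' : Type) [Field N] [Field N'] [Algebra N N'] [FiniteDimensional N N']
    [IsGalois N N'] (z : (N' ≃ₐ[N] N') → (N' ≃ₐ[N] N') → N') (hz : Cocycle N N' z) :
    ∃ B : Az N, Tw N N' B z := by
  obtain ⟨n, P, hn, hP⟩ := exists_fam N N' z hz
  exact exists_fixed N N' n hn z P hP

end Pool.Agent.Helper1.SR
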