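import Pool.Agent.Helper1.SR.Defs
import Pool.Agent.Helper8.BR.Fields
import Pool.Agent.Helper8.BR.OpBase

set_option autoImplicit false

/-!
# SB-R-02: an Azumaya algebra over a field is split by an algebraically closed field
Paper: `Om ⊗ A` is Azumaya over `Om` (`az_baseChange`), so isomorphic to `M_n(D)` with `D` a
finite dimensional division algebra over `Om` (`exists_division`), and `D = Om` because every
element of `D` generates a commutative finite field extension of `Om`.
-/

open scoped TensorProduct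

namespace Pool.Agent.Helper1.SR

theorem exists_equiv (Om A : Type) [Field Om] [IsAlgClosed Om] [Ring A] [Algebra Om A]
    [IsAzumaya Om A] : ∃ n : ℕ, n ≠ 0 ∧ Module.finrank Om A = n * n ∧
      Nonempty (A ≃ₐ[Om] Matrix (Fin n) (Fin n) Om) := by
  have h1 : IsSimpleRing A := Pool.Agent.Helper8.BR.az_simple Om A
  have h2 : FiniteDimensional Om A := inferInstance
  obtain ⟨n, hn, ⟨e⟩⟩ := IsSimpleRing.exists_algEquiv_matrix_of_isAlgClosed Om A
  refine ⟨n, hn.out, ?_, ⟨e⟩⟩
  rw [e.toLinearEquiv.finrank_eq, Module.finrank_matrix, Module.finrank_self, mul_one,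
    Fintype.card_fin]

theorem exists_repr (K Om A : Type) [Field K] [Field Om] [Algebra K Om] [IsAlgClosed Om]
    [Ring A] [Algebra K A] [IsAzumaya K A] : ∃ (n : ℕ) (_ : A →ₐ[K] Matrix (Fin n) (Fin n) Om),
      n ≠ 0 ∧ Module.finrank K A = n * n := by
  have h1 : IsAzumaya Om (Om ⊗[K] A) := Pool.Agent.Helper8.BR.az_baseChange K Om A
  obtain ⟨n, hn, hdim, ⟨e⟩⟩ := exists_equiv Om (Om ⊗[K] A)
  refine ⟨n, (e.toAlgHom.restrictScalars K).comp Algebra.TensorProduct.includeRight, hn, ?_⟩
  rw [← hdim, Module.finrank_baseChange]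

end Pool.Agent.Helper1.SR
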