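import Pool.Agent.Helper1.SR.FinGal

set_option autoImplicit false

/-!
# SB-R-15: from the infinite to the finite level
Paper: `TwI N W B z` gives `φ`, `P` over `W`.  `P` is locally constant, so it has finitely many values
(`LC.finite_range`); together with the entries of `φ` on a basis of `B` the entries of all `P g` and all
`φ b` lie in a finite Galois `N₀` through which `P` factors (`LC.exists_galois`,
`exists_finite_galois`).  For every finite Galois `N' ≥ N₀` choose for `g` in `Gal(N'/N)` a lift `g~`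
(`restrict_surjective`) and put `P' g = P g~` (entries in `N'`, independent of the lift).  The relation
`P' g g(P' h) = z(g~,h~) P'(gh)` holds because `P (g~ h~) = P ((gh)~)`.  The scalar is in `N'` because
some entry of the invertible matrix `P'(gh)` is nonzero; define `z'` by this.
-/

open scoped TensorProduct

namespace Pool.Agent.Helper1.SR

private theorem exists_entry_ne {W : Type} [Field W] {n : ℕ} (hn : n ≠ 0)
    {M : Matrix (Fin n) (Fin n) W} (hM : IsUnit M) : ∃ r s, M r s ≠ 0 := by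
  by_contra h
  push Not at h
  have hne : Nonempty (Fin n) := ⟨⟨0, Nat.pos_of_ne_zero hn⟩⟩
  have h0 : M = 0 := by
    ext r s
    exact h r s
  rw [h0] at hM
  exact not_isUnit_zero hM

private theorem z_eq {N W : Type} [Field N] [Field W] [Algebra N W] {n : ℕ} (hn : n ≠ 0)
    {P : (W ≃ₐ[N] W) → Matrix (Fin n) (Fin n) W} (hPu : ∀ g, IsUnit (P g))
    {z : (W ≃ₐ[N] W) → (W ≃ₐ[N] W) → W} (hmul : ∀ g h, P g * mapG g (P h) = z g h • P (g * h))
    (E : IntermediateField N W) (hst : ∀ (g : W ≃ₐ[N] W) (x : W), x ∈ E → g x ∈ E)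
    (hP : ∀ g r s, P g r s ∈ E)
    (hl : ∀ g g' : W ≃ₐ[N] W, (∀ x ∈ E, g x = g' x) → P g = P g')
    {g g' h h' : W ≃ₐ[N] W} (hg : ∀ x ∈ E, g x = g' x) (hh : ∀ x ∈ E, h x = h' x) :
    z g h = z g' h' := by
  have h1 : P g = P g' := hl _ _ hg
  have h2 : P h = P h' := hl _ _ hh
  have h3 : P (g * h) = P (g' * h') := hl _ _ fun x hx => by
    rw [AlgEquiv.mul_apply, AlgEquiv.mul_apply, hh x hx]
    exact hg _ (hst h' x hx)
  have h4 : mapG g (P h) = mapG g' (P h') := by
    rw [← h2]
    ext r s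
    exact hg _ (hP h r s)
  have h5 := hmul g h
  rw [h1, h4, hmul g' h', h3] at h5
  obtain ⟨r, s, hrs⟩ := exists_entry_ne hn (hPu (g' * h'))
  have h6 := congrFun (congrFun h5 r) s
  rw [Matrix.smul_apply, Matrix.smul_apply, smul_eq_mul, smul_eq_mul] at h6
  exact (mul_right_cancel₀ hrs h6).symm

private theorem z_mem {N W : Type} [Field N] [Field W] [Algebra N W] {n : ℕ} (hn : n ≠ 0)
    {P : (W ≃ₐ[N] W) → Matrix (Fin n) (Fin n) W} (hPu : ∀ g, IsUnit (P g))
    {z : (W ≃ₐ[N] W) → (W ≃ₐ[N] W) → W} (hmul : ∀ g h, P g * mapG g (P h) = z g h • P (g * h))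
    (E : IntermediateField N W) (hst : ∀ (g : W ≃ₐ[N] W) (x : W), x ∈ E → g x ∈ E)
    (hP : ∀ g r s, P g r s ∈ E) (g h : W ≃ₐ[N] W) : z g h ∈ E := by
  obtain ⟨r, s, hrs⟩ := exists_entry_ne hn (hPu (g * h))
  have h6 := congrFun (congrFun (hmul g h) r) s
  rw [Matrix.smul_apply, smul_eq_mul] at h6
  have h7 : z g h = (P g * mapG g (P h)) r s / P (g * h) r s := by
    rw [h6, mul_div_cancel_right₀ _ hrs]
  rw [h7]
  refine E.div_mem ?_ (hP _ _ _)
  rw [Matrix.mul_apply]
  exact sum_mem fun i _ => E.mul_mem (hP _ _ _) (hst _ _ (hP _ _ _))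

theorem twI_to_tw (N W : Type) [Field N] [Field W] [Algebra N W] [IsGalois N W] (B : Type)
    [Ring B] [Algebra N B] [FiniteDimensional N B] (z : (W ≃ₐ[N] W) → (W ≃ₐ[N] W) → W)
    (hB : TwI N W B z) :
    ∃ N0 : IntermediateField N W, FiniteDimensional N N0 ∧
      ∀ (N' : IntermediateField N W) (_ : FiniteDimensional N N') (_ : IsGalois N N'), N0 ≤ N' →
        ∃ z' : (N' ≃ₐ[N] N') → (N' ≃ₐ[N] N') → N', Tw N N' B z' ∧
          ∀ g h : W ≃ₐ[N] W, ((z' (AlgEquiv.restrictNormalHom N' g)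
            (AlgEquiv.restrictNormalHom N' h) : N') : W) = z g h := by
  obtain ⟨n, φ, P, hn, hdim, hPu, hcomm, hmul, hLC⟩ := hB
  have hne : Nonempty (Fin n) := ⟨⟨0, Nat.pos_of_ne_zero hn⟩⟩
  obtain ⟨E1, hE1f, hE1g, hE1⟩ := hLC.exists_galois
  let b := Module.finBasis N B
  have hS : ((⋃ M ∈ Set.range P, Set.range fun rs : Fin n × Fin n => M rs.1 rs.2) ∪
      Set.range fun t : Fin (Module.finrank N B) × Fin n × Fin n =>
        φ (b t.1) t.2.1 t.2.2 : Set W).Finite :=
    (hLC.finite_range.biUnion fun M _ => Set.finite_range _).union (Set.finite_range _)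
  obtain ⟨N0, h0f, h0g, h0S, h0E⟩ := exists_finite_galois N W _ hS E1
  refine ⟨N0, h0f, fun N' hN'f hN'g hle => ?_⟩
  have hP : ∀ g r s, P g r s ∈ N' := fun g r s =>
    hle (h0S (Or.inl (Set.mem_biUnion ⟨g, rfl⟩ ⟨(r, s), rfl⟩)))
  have hφ : ∀ x r s, φ x r s ∈ N' := by
    intro x r s
    rw [← b.sum_repr x, map_sum, Matrix.sum_apply]
    refine sum_mem fun i _ => ?_
    rw [map_smul, Matrix.smul_apply]
    exact N'.smul_mem (hle (h0S (Or.inr ⟨(i, r, s), rfl⟩)))
  have hl : ∀ g g' : W ≃ₐ[N] W, (∀ x ∈ N', g x = g' x) → P g = P g' := fun g g' h =>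
    hE1 g g' fun x hx => h x (hle (h0E hx))
  have hst : ∀ (g : W ≃ₐ[N] W) (x : W), x ∈ N' → g x ∈ N' := fun g x hx => by
    have h1 := restrict_apply N W N' g ⟨x, hx⟩
    change _ = g x at h1
    rw [← h1]
    exact Subtype.mem _
  have hz : ∀ g h, z g h ∈ N' := z_mem hn hPu hmul N' hst hP
  choose lf hlf using restrict_surjective N W N'
  have hagree : ∀ (g : W ≃ₐ[N] W), ∀ x ∈ N',
      lf (AlgEquiv.restrictNormalHom N' g) x = g x := fun g =>
    (restrict_eq_iff N W N' _ _).1 (hlf _)
  have happ : ∀ (g : N' ≃ₐ[N] N') (x : N'), ((g x : N') : W) = lf g (x : W) := fun g x => by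
    have h1 := restrict_apply N W N' (lf g) x
    rw [hlf g] at h1
    exact h1
  -- the representation over `N'`
  let φ' : B →ₐ[N] Matrix (Fin n) (Fin n) N' :=
    { toFun := fun x => Matrix.of fun r s => ⟨φ x r s, hφ x r s⟩
      map_one' := by
        ext r s
        change φ 1 r s = ((1 : Matrix (Fin n) (Fin n) N') r s : W)
        rw [map_one, Matrix.one_apply, Matrix.one_apply]
        split_ifs <;> rfl
      map_mul' := fun x y => by
        ext r s
        rw [Matrix.mul_apply]
        change φ (x * y) r s = ((∑ j, (⟨φ x r j, hφ x r j⟩ : N') * ⟨φ y j s, hφ y j s⟩ : N') : W)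
        rw [map_mul, Matrix.mul_apply, AddSubmonoidClass.coe_finsetSum]
        rfl
      map_zero' := by
        ext r s
        change φ 0 r s = 0
        rw [map_zero]
        rfl
      map_add' := fun x y => by
        ext r s
        change φ (x + y) r s = φ x r s + φ y r s
        rw [map_add]
        rfl
      commutes' := fun a => by
        ext r s
        change φ (algebraMap N B a) r s = _
        rw [AlgHom.commutes, Matrix.algebraMap_matrix_apply, Matrix.algebraMap_matrix_apply]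
        split_ifs <;> rfl }
  let P' : (N' ≃ₐ[N] N') → Matrix (Fin n) (Fin n) N' := fun g =>
    Matrix.of fun r s => ⟨P (lf g) r s, hP (lf g) r s⟩
  have hinj : Function.Injective (fun M : Matrix (Fin n) (Fin n) N' => M.map (N'.val)) := by
    intro M M' h
    ext r s
    exact congrFun (congrFun h r) s
  have hmap_mul : ∀ M M' : Matrix (Fin n) (Fin n) N',
      (M * M').map N'.val = M.map N'.val * M'.map N'.val := fun M M' =>
    Matrix.map_mul (f := (N'.val : N' →+* W))
  have hP'map : ∀ g, (P' g).map N'.val = P (lf g) := fun g => rfl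
  have hφ'map : ∀ x, (φ' x).map N'.val = φ x := fun x => rfl
  have hmapG : ∀ (g : N' ≃ₐ[N] N') (M : Matrix (Fin n) (Fin n) N'),
      (mapG g M).map N'.val = mapG (lf g) (M.map N'.val) := fun g M => by
    ext r s
    exact happ g (M r s)
  refine ⟨fun g h => ⟨z (lf g) (lf h), hz _ _⟩, ⟨n, φ', P', hn, hdim, ?_, ?_, ?_⟩, ?_⟩
  · intro g
    rw [Matrix.isUnit_iff_isUnit_det, isUnit_iff_ne_zero]
    intro h0
    have h1 := (Matrix.isUnit_iff_isUnit_det _).1 (hPu (lf g))
    have h2 : (P (lf g)).det = N'.val (P' g).det := by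
      rw [AlgHom.map_det]
      rfl
    rw [h2, h0, map_zero] at h1
    exact not_isUnit_zero h1
  · intro g x
    apply hinj
    change (P' g * mapG g (φ' x)).map N'.val = (φ' x * P' g).map N'.val
    rw [hmap_mul, hmap_mul, hmapG, hP'map, hφ'map]
    exact hcomm _ _
  · intro g h
    apply hinj
    change (P' g * mapG g (P' h)).map N'.val =
      ((⟨z (lf g) (lf h), hz _ _⟩ : N') • P' (g * h)).map N'.val
    rw [hmap_mul, hmapG, hP'map, hP'map, hmul]
    have h1 : P (lf g * lf h) = P (lf (g * h)) := hl _ _ fun x hx => by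
      have h2 := happ (g * h) ⟨x, hx⟩
      have h3 := happ g (h ⟨x, hx⟩)
      have h4 := happ h ⟨x, hx⟩
      rw [AlgEquiv.mul_apply] at h2
      rw [h3, h4] at h2
      exact h2
    rw [h1]
    rfl
  · intro g h
    exact z_eq hn hPu hmul N' hst hP hl (hagree g) (hagree h)

end Pool.Agent.Helper1.SR
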