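import Pool.Agent.Helper1.SR.OfFin
import Pool.Agent.Helper1.SR.Reg

set_option autoImplicit false

/-!
# SB-R-18: existence of twisted forms, infinite level
Paper: `z` depends only on the restrictions to a finite `N₀`, so it has finitely many values (as
`LC.finite_range`, applied to both arguments: the pair of restrictions to `N₀` takes finitely many values);
take a finite Galois `N'` containing `N₀` and all values.  The induced function `z'` on `Gal(N'/N)`
(through lifts) is a cocycle with values in `N'`; `tw_exists` and `tw_to_twI`.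
-/

open scoped TensorProduct

namespace Pool.Agent.Helper1.SR

open Pool.Agent.Helper8.BR (BrEq Az)

theorem twI_exists (N W : Type) [Field N] [Field W] [Algebra N W] [IsGalois N W]
    (z : (W ≃ₐ[N] W) → (W ≃ₐ[N] W) → W) (hz : Cocycle N W z)
    (hlc : ∃ N0 : IntermediateField N W, FiniteDimensional N N0 ∧
      ∀ g g' h h' : W ≃ₐ[N] W, (∀ x ∈ N0, g x = g' x) → (∀ x ∈ N0, h x = h' x) →
        z g h = z g' h') : ∃ B : Az N, TwI N W B z := by
  obtain ⟨N0, hN0, h0⟩ := hlc
  -- finitely many values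
  have hr1 : (Set.range z).Finite :=
    LC.finite_range (f := z) ⟨N0, hN0, fun g g' hg => funext fun h => h0 g g' h h hg fun _ _ => rfl⟩
  have hr2 : (⋃ F ∈ Set.range z, Set.range F).Finite := by
    refine Set.Finite.biUnion hr1 ?_
    rintro _ ⟨g, rfl⟩
    exact LC.finite_range (f := z g) ⟨N0, hN0, fun h h' hh => h0 g g h h' (fun _ _ => rfl) hh⟩
  obtain ⟨N', hN', hgal, hS, hle⟩ := exists_finite_galois N W _ hr2 N0
  have hmem : ∀ g h : W ≃ₐ[N] W, z g h ∈ N' := fun g h =>
    hS (Set.mem_biUnion (Set.mem_range_self g) (Set.mem_range_self h))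
  let lf : (N' ≃ₐ[N] N') → (W ≃ₐ[N] W) := Function.surjInv (restrict_surjective N W N')
  have hlf : ∀ σ, AlgEquiv.restrictNormalHom N' (lf σ) = σ :=
    Function.surjInv_eq (restrict_surjective N W N')
  let z' : (N' ≃ₐ[N] N') → (N' ≃ₐ[N] N') → N' := fun σ τ => ⟨z (lf σ) (lf τ), hmem _ _⟩
  have hz' : ∀ (σ τ : N' ≃ₐ[N] N') (g h : W ≃ₐ[N] W), AlgEquiv.restrictNormalHom N' g = σ →
      AlgEquiv.restrictNormalHom N' h = τ → ((z' σ τ : N') : W) = z g h := by
    intro σ τ g h hg hh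
    refine h0 _ _ _ _ (fun x hx => ?_) (fun x hx => ?_)
    · exact (restrict_eq_iff N W N' (lf σ) g).1 ((hlf σ).trans hg.symm) x (hle hx)
    · exact (restrict_eq_iff N W N' (lf τ) h).1 ((hlf τ).trans hh.symm) x (hle hx)
  have hcoc : Cocycle N N' z' := by
    refine ⟨fun σ τ h => hz.1 (lf σ) (lf τ) (congrArg Subtype.val h), fun σ τ ρ => ?_⟩
    apply Subtype.ext
    have h1 := hz' σ τ (lf σ) (lf τ) (hlf σ) (hlf τ)
    have h2 := hz' (σ * τ) ρ (lf σ * lf τ) (lf ρ) (by rw [map_mul, hlf, hlf]) (hlf ρ)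
    have h3 := hz' τ ρ (lf τ) (lf ρ) (hlf τ) (hlf ρ)
    have h4 := hz' σ (τ * ρ) (lf σ) (lf τ * lf ρ) (hlf σ) (by rw [map_mul, hlf, hlf])
    have h5 : ((σ (z' τ ρ) : N') : W) = lf σ (z (lf τ) (lf ρ)) := by
      rw [← h3, ← restrict_apply N W N' (lf σ) (z' τ ρ), hlf]
    change ((z' σ τ : N') : W) * ((z' (σ * τ) ρ : N') : W) = ((σ (z' τ ρ) : N') : W) * ((z' σ (τ * ρ) : N') : W)
    rw [h1, h2, h5, h4]
    exact hz.2 _ _ _
  obtain ⟨B, hB⟩ := tw_exists N N' z' hcoc
  refine ⟨B, ?_⟩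
  have h6 := tw_to_twI N W B N' z' hB
  have h7 : (fun g h => ((z' (AlgEquiv.restrictNormalHom N' g) (AlgEquiv.restrictNormalHom N' h) : N') : W)) = z := by
    funext g h
    exact hz' _ _ g h rfl rfl
  rw [h7] at h6
  exact h6

end Pool.Agent.Helper1.SR
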