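import Pool.Agent.Helper1.SR.InvDim
import Pool.Agent.Helper8.BR.Calc
import Pool.Agent.Helper8.BR.Fields
import Pool.Agent.Helper8.BR.OpBase

set_option autoImplicit false

/-!
# SB-R-11: uniqueness of twisted forms, finite level
Paper: let `(n, φ, P)` and `(m, ψ, Q)` be the two representations, with the same `z`, and
`X = Inv P Q`, of dimension `n m` (`inv_finrank`).  `(b ⊗ b') T = φ(b) T ψ(b')` defines an algebra
homomorphism `B ⊗ B'ᵐᵒᵖ → End_N(X)`: `P_g g(φ(b) T ψ(b')) = φ(b) P_g g(T) g(ψ b') =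
φ(b) T Q_g g(ψ b') = φ(b) T ψ(b') Q_g`.  The source is Azumaya (`az_op`, `az_tensor`), so simple
(`az_simple`), so the map is injective; both sides have dimension `n² m²`, so it is bijective and
`B ⊗ B'ᵐᵒᵖ ~ N` (`algEquivMatrix`, `BrEq.matrix`), so `B ~ B'` (`BrEq.of_tensor_op`).
-/

open scoped TensorProduct

namespace Pool.Agent.Helper1.SR

open Pool.Agent.Helper8.BR (BrEq Az)

section

variable {N N' : Type} [Field N] [Field N'] [Algebra N N'] {n m : ℕ} {B B' : Type} [Ring B]
  [Algebra N B] [Ring B'] [Algebra N B']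
  {P : (N' ≃ₐ[N] N') → Matrix (Fin n) (Fin n) N'}
  {Q : (N' ≃ₐ[N] N') → Matrix (Fin m) (Fin m) N'}

/-- the left action on the invariants -/
private noncomputable def uniqLeft (φ : B →ₐ[N] Matrix (Fin n) (Fin n) N')
    (hφ : ∀ g b, P g * mapG g (φ b) = φ b * P g) : B →ₐ[N] Module.End N (Inv P Q) where
  toFun b :=
    { toFun := fun T => ⟨φ b * T.1, fun g => by
        rw [mapR_mul, ← Matrix.mul_assoc, mapR_eq_mapG, hφ g b, Matrix.mul_assoc, T.2 g,
          Matrix.mul_assoc]⟩
      map_add' := fun T S => by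
        apply Subtype.ext
        exact Matrix.mul_add _ _ _
      map_smul' := fun c T => by
        apply Subtype.ext
        exact Matrix.mul_smul _ _ _ }
  map_one' := by
    ext T
    simp
  map_mul' a b := by
    apply LinearMap.ext
    intro T
    apply Subtype.ext
    change φ (a * b) * T.1 = φ a * (φ b * T.1)
    rw [map_mul, Matrix.mul_assoc]
  map_zero' := by
    apply LinearMap.ext
    intro T
    apply Subtype.ext
    change φ 0 * T.1 = 0
    rw [map_zero, Matrix.zero_mul]
  map_add' a b := by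
    apply LinearMap.ext
    intro T
    apply Subtype.ext
    change φ (a + b) * T.1 = φ a * T.1 + φ b * T.1
    rw [map_add, Matrix.add_mul]
  commutes' c := by
    apply LinearMap.ext
    intro T
    apply Subtype.ext
    change φ (algebraMap N B c) * T.1 = c • T.1
    rw [AlgHom.commutes, Algebra.algebraMap_eq_smul_one, Matrix.smul_mul, Matrix.one_mul]

/-- the right action on the invariants -/
private noncomputable def uniqRight (ψ : B' →ₐ[N] Matrix (Fin m) (Fin m) N')
    (hψ : ∀ g b, Q g * mapG g (ψ b) = ψ b * Q g) : B'ᵐᵒᵖ →ₐ[N] Module.End N (Inv P Q) where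
  toFun b :=
    { toFun := fun T => ⟨T.1 * ψ b.unop, fun g => by
        rw [mapR_mul, ← Matrix.mul_assoc, T.2 g, Matrix.mul_assoc, mapR_eq_mapG, hψ g,
          Matrix.mul_assoc]⟩
      map_add' := fun T S => by
        apply Subtype.ext
        exact Matrix.add_mul _ _ _
      map_smul' := fun c T => by
        apply Subtype.ext
        exact Matrix.smul_mul _ _ _ }
  map_one' := by
    apply LinearMap.ext
    intro T
    apply Subtype.ext
    change T.1 * ψ (MulOpposite.unop 1) = T.1
    rw [MulOpposite.unop_one, map_one, Matrix.mul_one]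
  map_mul' a b := by
    apply LinearMap.ext
    intro T
    apply Subtype.ext
    change T.1 * ψ (MulOpposite.unop (a * b)) = (T.1 * ψ b.unop) * ψ a.unop
    rw [MulOpposite.unop_mul, map_mul, Matrix.mul_assoc]
  map_zero' := by
    apply LinearMap.ext
    intro T
    apply Subtype.ext
    change T.1 * ψ (MulOpposite.unop 0) = 0
    rw [MulOpposite.unop_zero, map_zero, Matrix.mul_zero]
  map_add' a b := by
    apply LinearMap.ext
    intro T
    apply Subtype.ext
    change T.1 * ψ (MulOpposite.unop (a + b)) = T.1 * ψ a.unop + T.1 * ψ b.unop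
    rw [MulOpposite.unop_add, map_add, Matrix.mul_add]
  commutes' c := by
    apply LinearMap.ext
    intro T
    apply Subtype.ext
    change T.1 * ψ (MulOpposite.unop (algebraMap N B'ᵐᵒᵖ c)) = c • T.1
    rw [MulOpposite.algebraMap_apply, MulOpposite.unop_op, AlgHom.commutes,
      Algebra.algebraMap_eq_smul_one, Matrix.mul_smul, Matrix.mul_one]

private theorem uniq_comm (φ : B →ₐ[N] Matrix (Fin n) (Fin n) N')
    (hφ : ∀ g b, P g * mapG g (φ b) = φ b * P g) (ψ : B' →ₐ[N] Matrix (Fin m) (Fin m) N')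
    (hψ : ∀ g b, Q g * mapG g (ψ b) = ψ b * Q g) (b : B) (b' : B'ᵐᵒᵖ) :
    Commute (uniqLeft (Q := Q) φ hφ b) (uniqRight (P := P) ψ hψ b') := by
  apply LinearMap.ext
  intro T
  apply Subtype.ext
  change φ b * (T.1 * ψ b'.unop) = (φ b * T.1) * ψ b'.unop
  rw [Matrix.mul_assoc]

end

private theorem uniq_bij {K A E : Type} [Field K] [Ring A] [Algebra K A] [Ring E] [Algebra K E]
    [Module.Finite K E] (F : A →ₐ[K] E) (hinj : Function.Injective F)
    (hd : Module.finrank K A = Module.finrank K E) : Function.Bijective F := by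
  have hinj' : Function.Injective F.toLinearMap := hinj
  have hfA : Module.Finite K A := Module.Finite.of_injective F.toLinearMap hinj'
  exact ⟨hinj, (LinearMap.injective_iff_surjective_of_finrank_eq_finrank hd).1 hinj'⟩

theorem tw_unique (N N' : Type) [Field N] [Field N'] [Algebra N N'] [FiniteDimensional N N']
    [IsGalois N N'] (z : (N' ≃ₐ[N] N') → (N' ≃ₐ[N] N') → N') (B B' : Type) [Ring B]
    [Algebra N B] [IsAzumaya N B] [Ring B'] [Algebra N B'] [IsAzumaya N B']
    (hB : Tw N N' B z) (hB' : Tw N N' B' z) : BrEq N B B' := by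
  obtain ⟨n, φ, P, hn, hdB, hPu, hφ, hPm⟩ := hB
  obtain ⟨m, ψ, Q, hm, hdB', hQu, hψ, hQm⟩ := hB'
  have hP : Fam N N' n z P := ⟨hPu, hPm⟩
  have hQ : Fam N N' m z Q := ⟨hQu, hQm⟩
  have hfin : FiniteDimensional N (Inv P Q) := inv_finite hP hQ
  have hdim : Module.finrank N (Inv P Q) = n * m := inv_finrank hP hQ
  have hnm : n * m ≠ 0 := mul_ne_zero hn hm
  have hnt : Nontrivial (Inv P Q) := Module.nontrivial_of_finrank_pos (R := N) (by omega)
  have hop : IsAzumaya N B'ᵐᵒᵖ := Pool.Agent.Helper8.BR.az_op N B'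
  have hAz : IsAzumaya N (B ⊗[N] B'ᵐᵒᵖ) := Pool.Agent.Helper8.BR.az_tensor N B B'ᵐᵒᵖ
  have hs : IsSimpleRing (B ⊗[N] B'ᵐᵒᵖ) := Pool.Agent.Helper8.BR.az_simple N _
  let F : (B ⊗[N] B'ᵐᵒᵖ) →ₐ[N] Module.End N (Inv P Q) :=
    Algebra.TensorProduct.lift (uniqLeft φ hφ) (uniqRight ψ hψ) (uniq_comm φ hφ ψ hψ)
  have hinj : Function.Injective F := RingHom.injective F.toRingHom
  have hfB : Module.Finite N B := inferInstance
  have hfB' : Module.Finite N B'ᵐᵒᵖ := inferInstance
  have hd1 : Module.finrank N (B ⊗[N] B'ᵐᵒᵖ) = Module.finrank N (Module.End N (Inv P Q)) := by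
    have h1 : Module.finrank N (Module.End N (Inv P Q)) =
        Module.finrank N (Inv P Q) * Module.finrank N (Inv P Q) :=
      Module.finrank_linearMap N N (Inv P Q) (Inv P Q)
    rw [Module.finrank_tensorProduct, h1, hdim, hdB,
      ← (MulOpposite.opLinearEquiv N (M := B')).finrank_eq, hdB']
    ring
  have hfE : Module.Finite N (Module.End N (Inv P Q)) := inferInstance
  have hbij : Function.Bijective F := uniq_bij (A := B ⊗[N] B'ᵐᵒᵖ) (E := Module.End N (Inv P Q)) F hinj hd1
  have e : (B ⊗[N] B'ᵐᵒᵖ) ≃ₐ[N] Module.End N (Inv P Q) :=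
    AlgEquiv.ofBijective F hbij
  apply Pool.Agent.Helper8.BR.BrEq.of_tensor_op
  refine (Pool.Agent.Helper8.BR.BrEq.of_algEquiv
    (e.trans (algEquivMatrix (Module.finBasis N (Inv P Q))))).trans
    (Pool.Agent.Helper8.BR.BrEq.matrix N N _ ?_)
  rw [hdim]
  exact hnm

end Pool.Agent.Helper1.SR
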