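import Pool.Agent.Helper1.SR.ToFin
import Pool.Agent.Helper1.SR.Uniq

set_option autoImplicit false

/-!
# SB-R-17: uniqueness of twisted forms, infinite level
Paper: take a finite Galois `N'` above the two `N₀` of `twI_to_tw`; the two cocycles on
`Gal(N'/N)` are equal, because both are `z` on lifts (`restrict_surjective`); `tw_unique`.
-/

open scoped TensorProduct

namespace Pool.Agent.Helper1.SR

open Pool.Agent.Helper8.BR (BrEq Az)

theorem twI_unique (N W : Type) [Field N] [Field W] [Algebra N W] [IsGalois N W]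
    (z : (W ≃ₐ[N] W) → (W ≃ₐ[N] W) → W) (B B' : Type) [Ring B] [Algebra N B] [IsAzumaya N B]
    [Ring B'] [Algebra N B'] [IsAzumaya N B'] (hB : TwI N W B z) (hB' : TwI N W B' z) :
    BrEq N B B' := by
  have f1 : Module.Finite N B := inferInstance
  have f2 : Module.Finite N B' := inferInstance
  obtain ⟨N1, hN1, h1⟩ := twI_to_tw N W B z hB
  obtain ⟨N2, hN2, h2⟩ := twI_to_tw N W B' z hB'
  have hN3 : FiniteDimensional N (N1 ⊔ N2 : IntermediateField N W) :=
    IntermediateField.finiteDimensional_sup _ _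
  obtain ⟨E, hE1, hE2, -, hE3⟩ := exists_finite_galois N W ∅ Set.finite_empty (N1 ⊔ N2)
  obtain ⟨z1, hz1, e1⟩ := h1 E hE1 hE2 (le_sup_left.trans hE3)
  obtain ⟨z2, hz2, e2⟩ := h2 E hE1 hE2 (le_sup_right.trans hE3)
  have hz : z1 = z2 := by
    funext g h
    obtain ⟨g', rfl⟩ := restrict_surjective N W E g
    obtain ⟨h', rfl⟩ := restrict_surjective N W E h
    apply Subtype.ext
    rw [e1, e2]
  rw [← hz] at hz2
  exact tw_unique N E z1 B B' hz1 hz2

end Pool.Agent.Helper1.SR
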